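import Mathlib.Algebra.BigOperators.Ring.Finset
import Mathlib.Algebra.BigOperators.Field
import Mathlib.Algebra.Order.BigOperators.Ring.Finset
import Mathlib.Algebra.Order.Floor.Semiring
import Mathlib.Algebra.Order.Archimedean.Real.Basic
import Mathlib.Tactic.Linarith
import Mathlib.Tactic.Positivity
import Mathlib.Tactic.FieldSimp
import Mathlib.Tactic.Ring

/-! A law on nonempty sets of moduli with prescribed intersection masses. -/

noncomputable section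

namespace Pool.Agent.MP_893164_nt

open Finset

/-- The product law on subsets of `P` with marginals `x`. -/
def bern (P : Finset ℕ) (x : ℕ → ℝ) (R : Finset ℕ) : ℝ :=
  (∏ p ∈ R, x p) * ∏ p ∈ P \ R, (1 - x p)

/-- The mass of the sets containing `D`. -/
def corr (P : Finset ℕ) (w : Finset ℕ → ℝ) (D : Finset ℕ) : ℝ :=
  ∑ R ∈ P.powerset with D ⊆ R, w R

theorem corr_bern {P D : Finset ℕ} (x : ℕ → ℝ) (hD : D ⊆ P) :
    corr P (bern P x) D = ∏ p ∈ D, x p := by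
  have h := prod_add x (fun p => if p ∈ D then 0 else 1 - x p) P
  have h1 : ∏ p ∈ P, (x p + if p ∈ D then 0 else 1 - x p) = ∏ p ∈ D, x p := by
    rw [← prod_subset hD (fun p _ hp => by simp [hp])]
    exact prod_congr rfl fun p hp => by simp [hp]
  rw [← h1, h, corr, sum_filter]
  refine sum_congr rfl fun R _ => ?_
  split_ifs with hR
  · rw [bern]
    congr 1
    refine prod_congr rfl fun p hp => ?_
    rw [if_neg fun h => (mem_sdiff.1 hp).2 (hR h)]
  · obtain ⟨p, hp, hp'⟩ := not_subset.1 hR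
    rw [prod_eq_zero (s := P \ R) (mem_sdiff.2 ⟨hD hp, hp'⟩) (by simp [hp]), mul_zero]

theorem bern_nonneg {P : Finset ℕ} {x : ℕ → ℝ} (h0 : ∀ p, 0 ≤ x p) (h1 : ∀ p ∈ P, x p ≤ 1)
    (R : Finset ℕ) : 0 ≤ bern P x R :=
  mul_nonneg (prod_nonneg fun p _ => h0 p)
    (prod_nonneg fun p hp => sub_nonneg.2 (h1 p (mem_sdiff.1 hp).1))

theorem bern_empty {P : Finset ℕ} {x : ℕ → ℝ} {q : ℕ} (hq : q ∈ P) (h : x q = 1) :
    bern P x ∅ = 0 := by
  rw [bern, sdiff_empty, prod_eq_zero hq (by simp [h]), mul_zero]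

/-- Marginals `y` on `L`, `z` on `M`, and the natural ones elsewhere. -/
def mar (L M : Finset ℕ) (y z : ℕ → ℝ) (p : ℕ) : ℝ :=
  if p ∈ L then y p else if p ∈ M then z p else 1 / p

theorem prod_mar (L M D : Finset ℕ) (y z : ℕ → ℝ) :
    ∏ p ∈ D, mar L M y z p = (∏ p ∈ D with p ∈ L, y p) *
      ((∏ p ∈ (D.filter (· ∉ L)).filter (· ∈ M), z p) *
        ∏ p ∈ (D.filter (· ∉ L)).filter (· ∉ M), (1 : ℝ) / p) := by
  unfold mar
  rw [prod_ite, prod_ite]

theorem mar_nonneg {L M : Finset ℕ} {y z : ℕ → ℝ} (hy : ∀ p, 0 ≤ y p) (hz : ∀ p, 0 ≤ z p)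
    (p : ℕ) : 0 ≤ mar L M y z p := by
  unfold mar
  split_ifs
  exacts [hy p, hz p, by positivity]

theorem inv_le {p : ℕ} (hp : 1 ≤ p) : (1 : ℝ) / p ≤ 1 := by
  have : (1 : ℝ) ≤ p := by exact_mod_cast hp
  exact (div_le_one (by linarith)).2 this

theorem mar_le {P L M : Finset ℕ} {y z : ℕ → ℝ} (hP : ∀ p ∈ P, 1 ≤ p) (hy : ∀ p ∈ L, y p ≤ 1)
    (hz : ∀ p, z p ≤ 1) : ∀ p ∈ P, mar L M y z p ≤ 1 := by
  intro p hp
  unfold mar
  split_ifs with h
  exacts [hy p h, hz p, inv_le (hP p hp)]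

/-- The point mass. -/
def dl (q p : ℕ) : ℝ := if p = q then 1 else 0

theorem dl_nonneg (q p : ℕ) : 0 ≤ dl q p := by unfold dl; split_ifs <;> norm_num

theorem dl_le (q p : ℕ) : dl q p ≤ 1 := by unfold dl; split_ifs <;> norm_num

/-- Mass of `E` under the choice of one element of `L`. -/
def one (L E : Finset ℕ) : ℝ := ∑ q ∈ L, 1 / (q : ℝ) * ∏ p ∈ E, dl q p

theorem one_empty (L : Finset ℕ) : one L ∅ = ∑ q ∈ L, 1 / (q : ℝ) := by simp [one]

theorem one_single {L : Finset ℕ} {p : ℕ} (hp : p ∈ L) : one L {p} = 1 / p := by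
  simp [one, dl, hp]

theorem one_two {L E : Finset ℕ} {p q : ℕ} (hp : p ∈ E) (hq : q ∈ E) (h : p ≠ q) :
    one L E = 0 := by
  refine sum_eq_zero fun r _ => ?_
  by_cases hr : p = r
  · rw [prod_eq_zero hq (by simp [dl, ← hr, h.symm]), mul_zero]
  · rw [prod_eq_zero hp (by simp [dl, hr]), mul_zero]

theorem one_le {L E : Finset ℕ} {p : ℕ} (hp : p ∈ E) (hL : p ∈ L) : one L E ≤ 1 / p := by
  by_cases h : ∃ q ∈ E, q ≠ p
  · obtain ⟨q, hq, h⟩ := h
    rw [one_two hq hp h]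
    positivity
  · push Not at h
    have : E = {p} := eq_singleton_iff_unique_mem.2 ⟨hp, h⟩
    rw [this, one_single hL]

theorem prod_le_sub {E T : Finset ℕ} {x : ℕ → ℝ} (hT : T ⊆ E) (h0 : ∀ p, 0 ≤ x p)
    (h1 : ∀ p ∈ E, x p ≤ 1) : ∏ p ∈ E, x p ≤ ∏ p ∈ T, x p := by
  rw [← prod_sdiff hT]
  exact mul_le_of_le_one_left (prod_nonneg fun p _ => h0 p)
    (prod_le_one (fun p _ => h0 p) fun p hp => h1 p (mem_sdiff.1 hp).1)

theorem corr_sum {ι : Type} (P D : Finset ℕ) (s : Finset ι) (c : ι → ℝ) (w : ι → Finset ℕ → ℝ) :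
    corr P (fun R => ∑ i ∈ s, c i * w i R) D = ∑ i ∈ s, c i * corr P (w i) D := by
  unfold corr
  rw [sum_comm]
  exact sum_congr rfl fun i _ => by rw [mul_sum]

theorem corr_add (P D : Finset ℕ) (v w : Finset ℕ → ℝ) :
    corr P (fun R => v R + w R) D = corr P v D + corr P w D := by
  unfold corr
  rw [sum_add_distrib]

/-- The four-part mixture. -/
def mix (P L M : Finset ℕ) (k c₀ c₁ c₂ c₃ : ℝ) (R : Finset ℕ) : ℝ :=
  ((∑ q ∈ M, c₀ * (1 / q) * bern P (mar L M (fun p => k / p) (dl q)) R +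
    ∑ p ∈ L, c₁ * (1 / p) * bern P (mar L M (dl p) fun _ => 0) R) +
    ∑ q ∈ M, c₂ * (1 / q) * bern P (mar L M (fun _ => 0) (dl q)) R) +
    ∑ s ∈ L ×ˢ M, c₃ * (1 / s.1 * (1 / s.2)) * bern P (mar L M (dl s.1) (dl s.2)) R

/-- The factor of the mixture coming from the large moduli. -/
def fac (L M E F : Finset ℕ) (k c₀ c₁ c₂ c₃ : ℝ) : ℝ :=
  c₀ * (∏ p ∈ E, k / p) * one M F + c₁ * one L E * (∏ _p ∈ F, (0 : ℝ)) +
    c₂ * (∏ _p ∈ E, (0 : ℝ)) * one M F + c₃ * one L E * one M F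

theorem corr_mix {P D : Finset ℕ} (L M : Finset ℕ) (k c₀ c₁ c₂ c₃ : ℝ) (hD : D ⊆ P) :
    corr P (mix P L M k c₀ c₁ c₂ c₃) D =
      fac L M (D.filter (· ∈ L)) ((D.filter (· ∉ L)).filter (· ∈ M)) k c₀ c₁ c₂ c₃ *
        ∏ p ∈ (D.filter (· ∉ L)).filter (· ∉ M), (1 : ℝ) / p := by
  unfold mix
  rw [corr_add, corr_add, corr_add, corr_sum, corr_sum, corr_sum, corr_sum]
  simp only [corr_bern _ hD, prod_mar, fac, one, add_mul, sum_product]
  congr 1
  · congr 1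
    · congr 1
      · rw [mul_sum, sum_mul]
        exact sum_congr rfl fun _ _ => by ring
      · rw [mul_sum, sum_mul, sum_mul]
        exact sum_congr rfl fun _ _ => by ring
    · rw [mul_sum, sum_mul]
      exact sum_congr rfl fun _ _ => by ring
  · rw [mul_assoc c₃, sum_mul_sum, mul_sum, sum_mul]
    refine sum_congr rfl fun _ _ => ?_
    rw [mul_sum, sum_mul]
    exact sum_congr rfl fun _ _ => by ring

theorem mix_nonneg {P L M : Finset ℕ} {k c₀ c₁ c₂ c₃ : ℝ} (hP : ∀ p ∈ P, 1 ≤ p) (k0 : 0 ≤ k)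
    (hk : ∀ p ∈ L, k / p ≤ 1) (h₀ : 0 ≤ c₀) (h₁ : 0 ≤ c₁) (h₂ : 0 ≤ c₂) (h₃ : 0 ≤ c₃)
    (R : Finset ℕ) : 0 ≤ mix P L M k c₀ c₁ c₂ c₃ R := by
  unfold mix
  refine add_nonneg (add_nonneg (add_nonneg ?_ ?_) ?_) ?_ <;>
    refine sum_nonneg fun q _ => mul_nonneg (by positivity) (bern_nonneg ?_ ?_ R)
  · exact mar_nonneg (fun p => by positivity) (dl_nonneg q)
  · exact mar_le hP hk (dl_le q)
  · exact mar_nonneg (dl_nonneg q) fun _ => le_rfl
  · exact mar_le hP (fun p _ => dl_le q p) fun _ => zero_le_one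
  · exact mar_nonneg (fun _ => le_rfl) (dl_nonneg q)
  · exact mar_le hP (fun _ _ => zero_le_one) (dl_le q)
  · exact mar_nonneg (dl_nonneg _) (dl_nonneg _)
  · exact mar_le hP (fun p _ => dl_le _ p) (dl_le _)

theorem mix_empty {P L M : Finset ℕ} (k c₀ c₁ c₂ c₃ : ℝ) (hL : L ⊆ P) (hM : M ⊆ P)
    (hd : ∀ q ∈ M, q ∉ L) : mix P L M k c₀ c₁ c₂ c₃ ∅ = 0 := by
  unfold mix
  rw [sum_eq_zero, sum_eq_zero, sum_eq_zero, sum_eq_zero]
  · norm_num
  · intro s hs
    have := (mem_product.1 hs).1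
    rw [bern_empty (hL this) (by simp [mar, dl, this]), mul_zero]
  · intro q hq
    rw [bern_empty (hM hq) (by simp [mar, dl, hq, hd q hq]), mul_zero]
  · intro q hq
    rw [bern_empty (hL hq) (by simp [mar, dl, hq]), mul_zero]
  · intro q hq
    rw [bern_empty (hM hq) (by simp [mar, dl, hq, hd q hq]), mul_zero]

theorem fac_cases {L M E F : Finset ℕ} {n : ℕ} {k u v : ℝ} (hE : E ⊆ L) (hF : F ⊆ M)
    (hd : ∀ q ∈ M, q ∉ L) (hn : 0 < n) (k1 : 1 < k) (hk : ∀ p ∈ L, k ≤ p)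
    (hu : u = ∑ p ∈ L, 1 / (p : ℝ)) (hv : v = ∑ p ∈ M, 1 / (p : ℝ))
    (u0 : 0 < u) (v0 : 0 < v) (u1 : u ≤ 1) (v1 : v ≤ 1) (ht : 0 ≤ (1 - 1 / k) * u + v - 1)
    (h12 : ∀ p ∈ L, ∀ q ∈ M, n < p * q) (h22 : ∀ p ∈ M, ∀ q ∈ M, n < p * q)
    (h111 : ∀ p ∈ L, ∀ q ∈ L, ∀ r ∈ L, k * n ≤ (p : ℝ) * q * r) {f : ℝ}
    (hf : f = fac L M E F k (1 / k ^ 2 / v) (1 - 1 / k - ((1 - 1 / k) * u + v - 1) / u)
      (1 - (1 / k ^ 2 + ((1 - 1 / k) * u + v - 1)) / v) (((1 - 1 / k) * u + v - 1) / (u * v))) :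
    f = (∏ p ∈ E, (1 : ℝ) / p) * ∏ p ∈ F, (1 : ℝ) / p ∨
      (∃ T ⊆ E ∪ F, n < ∏ p ∈ T, p) ∧ f ≤ 1 / n := by
  have n0 : (0 : ℝ) < n := by exact_mod_cast hn
  have k0 : 0 < k := by linarith
  have p0 : ∀ p ∈ L, (0 : ℝ) < p := fun p hp => k0.trans_le (hk p hp)
  have a0 : ∀ p : ℕ, 0 ≤ k / p := fun p => by positivity
  have a1 : ∀ p ∈ E, k / p ≤ 1 := fun p hp => (div_le_one (p0 p (hE hp))).2 (hk p (hE hp))
  rw [fac] at hf
  by_cases hF2 : ∃ p ∈ F, ∃ q ∈ F, p ≠ q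
  · obtain ⟨p, hp, q, hq, h⟩ := hF2
    rw [one_two hp hq h, prod_eq_zero hp rfl] at hf
    refine Or.inr ⟨⟨{p, q}, ?_, ?_⟩, ?_⟩
    · exact insert_subset (mem_union_right _ hp) (singleton_subset_iff.2 (mem_union_right _ hq))
    · rw [prod_pair h]
      exact h22 p (hF hp) q (hF hq)
    · rw [hf]
      simp
  push Not at hF2
  rcases F.eq_empty_or_nonempty with rfl | ⟨q, hq⟩
  · rw [one_empty, ← hv, prod_empty] at hf
    rw [prod_empty, mul_one]
    by_cases h3 : 2 < E.card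
    · obtain ⟨p, q, r, hp, hq, hr, hpq, hpr, hqr⟩ := two_lt_card_iff.1 h3
      have hT : ({p, q, r} : Finset ℕ) ⊆ E := by
        simp [insert_subset_iff, hp, hq, hr]
      have e : ∀ x : ℕ → ℝ, ∏ s ∈ ({p, q, r} : Finset ℕ), x s = x p * (x q * x r) := fun x => by
        rw [prod_insert (by simp [hpq, hpr]), prod_pair hqr]
      have h1 := h111 p (hE hp) q (hE hq) r (hE hr)
      have b1 := p0 p (hE hp)
      have b2 := p0 q (hE hq)
      have b3 := p0 r (hE hr)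
      refine Or.inr ⟨⟨{p, q, r}, hT.trans subset_union_left, ?_⟩, ?_⟩
      · have : (n : ℝ) < ∏ s ∈ ({p, q, r} : Finset ℕ), (s : ℝ) := by
          rw [e]
          nlinarith
        rw [← Nat.cast_prod] at this
        exact Nat.cast_lt.1 this
      · rw [one_two hp hq hpq, prod_eq_zero (f := fun _ => (0 : ℝ)) hp rfl] at hf
        have h2 := prod_le_sub hT a0 a1
        rw [e] at h2
        calc f = 1 / k ^ 2 * ∏ p ∈ E, k / p := by rw [hf]; field_simp; ring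
          _ ≤ 1 / k ^ 2 * (k / p * (k / q * (k / r))) := by gcongr
          _ = k / (p * q * r) := by field_simp
          _ ≤ 1 / n := by
            rw [div_le_div_iff₀ (by positivity) n0]
            linarith
    · left
      have h3' : E.card = 0 ∨ E.card = 1 ∨ E.card = 2 := by omega
      rcases h3' with h | h | h
      · obtain rfl := card_eq_zero.1 h
        rw [one_empty, ← hu] at hf
        simp only [prod_empty] at hf ⊢
        rw [hf]
        field_simp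
        ring
      · obtain ⟨p, rfl⟩ := card_eq_one.1 h
        have hp := hE (mem_singleton_self p)
        have := p0 p hp
        rw [one_single hp] at hf
        simp only [prod_singleton] at hf ⊢
        rw [hf]
        field_simp
        ring
      · obtain ⟨p, q, hpq, rfl⟩ := card_eq_two.1 h
        have hp : p ∈ ({p, q} : Finset ℕ) := by simp
        have hq : q ∈ ({p, q} : Finset ℕ) := by simp
        have := p0 p (hE hp)
        have := p0 q (hE hq)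
        rw [one_two hp hq hpq] at hf
        simp only [prod_pair hpq] at hf ⊢
        rw [hf]
        field_simp
        ring
  · obtain rfl : F = {q} := eq_singleton_iff_unique_mem.2 ⟨hq, fun p hp => hF2 p hp q hq⟩
    have hqM := hF hq
    have q0 : (0 : ℝ) < q := by
      have := h22 q hqM q hqM
      have : 0 < q := Nat.pos_of_ne_zero fun h => by simp [h] at this
      exact_mod_cast this
    rw [one_single hqM, prod_singleton] at hf
    rcases E.eq_empty_or_nonempty with rfl | ⟨p, hp⟩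
    · left
      rw [one_empty, ← hu] at hf
      simp only [prod_empty, prod_singleton] at hf ⊢
      rw [hf]
      field_simp
      ring
    · have hpq : p ≠ q := fun h => hd q hqM (h ▸ hE hp)
      have b1 := p0 p (hE hp)
      have h1 := h12 p (hE hp) q hqM
      refine Or.inr ⟨⟨{p, q}, ?_, by rwa [prod_pair hpq]⟩, ?_⟩
      · exact insert_subset (mem_union_left _ hp) (singleton_subset_iff.2 (mem_union_right _ hq))
      · rw [prod_eq_zero (f := fun _ => (0 : ℝ)) hp rfl] at hf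
        have h2 := prod_le_sub (singleton_subset_iff.2 hp) a0 a1
        rw [prod_singleton] at h2
        have h3 := one_le hp (hE hp)
        have h4 : (n : ℝ) ≤ p * q := by exact_mod_cast h1.le
        calc f = 1 / k ^ 2 / v * (∏ p ∈ E, k / p) * (1 / q) +
              ((1 - 1 / k) * u + v - 1) / (u * v) * one L E * (1 / q) := by rw [hf]; ring
          _ ≤ 1 / k ^ 2 / v * (k / p) * (1 / q) +
              ((1 - 1 / k) * u + v - 1) / (u * v) * (1 / p) * (1 / q) := by gcongr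
          _ = (u + v - 1) / (u * v) * (1 / (p * q)) := by field_simp; ring
          _ ≤ 1 * (1 / n) := by
            refine mul_le_mul ?_ (one_div_le_one_div_of_le n0 h4) (by positivity) zero_le_one
            rw [div_le_one (by positivity)]
            nlinarith
          _ = 1 / n := one_mul _

theorem exists_law {P L M : Finset ℕ} {n : ℕ} {k : ℝ} (hP : ∀ p ∈ P, 1 ≤ p) (hL : L ⊆ P)
    (hM : M ⊆ P) (hd : ∀ q ∈ M, q ∉ L) (hn : 0 < n) (k1 : 1 < k) (hk : ∀ p ∈ L, k ≤ p)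
    (u1 : ∑ p ∈ L, 1 / (p : ℝ) ≤ 1) (v1 : ∑ p ∈ M, 1 / (p : ℝ) < 1)
    (ht : 1 + 1 / k ≤ ∑ p ∈ L, 1 / (p : ℝ) + ∑ p ∈ M, 1 / (p : ℝ))
    (h12 : ∀ p ∈ L, ∀ q ∈ M, n < p * q) (h22 : ∀ p ∈ M, ∀ q ∈ M, n < p * q)
    (h111 : ∀ p ∈ L, ∀ q ∈ L, ∀ r ∈ L, k * n ≤ (p : ℝ) * q * r) :
    ∃ w : Finset ℕ → ℝ, (∀ R, 0 ≤ w R) ∧ w ∅ = 0 ∧ ∀ D ⊆ P, ∀ l : ℕ, l ≤ n →
      (⌊(l : ℝ) / (∏ p ∈ D, p : ℕ)⌋₊ : ℝ) ≤ l * corr P w D ∧
        l * corr P w D ≤ ⌈(l : ℝ) / (∏ p ∈ D, p : ℕ)⌉₊ := by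
  set u := ∑ p ∈ L, 1 / (p : ℝ) with hu
  set v := ∑ p ∈ M, 1 / (p : ℝ) with hv
  have n0 : (0 : ℝ) < n := by exact_mod_cast hn
  have k0 : 0 < k := by linarith
  have i0 : 0 < 1 / k := by positivity
  have i1 : 1 / k < 1 := (div_lt_one k0).2 k1
  have u0 : 0 < u := by linarith
  have v0 : 0 < v := by linarith
  have t0 : 0 ≤ (1 - 1 / k) * u + v - 1 := by nlinarith
  have a1 : ∀ p ∈ L, k / p ≤ 1 := fun p hp => (div_le_one (k0.trans_le (hk p hp))).2 (hk p hp)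
  have c1 : 0 ≤ 1 - 1 / k - ((1 - 1 / k) * u + v - 1) / u := by
    rw [sub_nonneg, div_le_iff₀ u0]
    linarith
  have c2 : 0 ≤ 1 - (1 / k ^ 2 + ((1 - 1 / k) * u + v - 1)) / v := by
    rw [sub_nonneg, div_le_one v0]
    have : 1 / k ^ 2 = 1 / k * (1 / k) := by field_simp
    nlinarith
  have w0 := mix_nonneg (P := P) (L := L) (M := M) hP k0.le a1
    (show 0 ≤ 1 / k ^ 2 / v by positivity) c1 c2
    (show 0 ≤ ((1 - 1 / k) * u + v - 1) / (u * v) by positivity)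
  refine ⟨_, w0, mix_empty _ _ _ _ _ hL hM hd, fun D hD l hl => ?_⟩
  have c0 : 0 ≤ corr P (mix P L M k (1 / k ^ 2 / v) (1 - 1 / k - ((1 - 1 / k) * u + v - 1) / u)
      (1 - (1 / k ^ 2 + ((1 - 1 / k) * u + v - 1)) / v) (((1 - 1 / k) * u + v - 1) / (u * v))) D :=
    sum_nonneg fun R _ => w0 R
  have l0 : (0 : ℝ) ≤ l := Nat.cast_nonneg l
  have d0 : (0 : ℝ) < (∏ p ∈ D, p : ℕ) := by
    exact_mod_cast prod_pos fun p hp => hP p (hD hp)
  have key := fac_cases (E := D.filter (· ∈ L)) (F := (D.filter (· ∉ L)).filter (· ∈ M))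
    (fun p hp => (mem_filter.1 hp).2) (fun p hp => (mem_filter.1 hp).2) hd hn k1 hk hu hv u0 v0
    u1 v1.le t0 h12 h22 h111 rfl
  have hc := corr_mix L M k (1 / k ^ 2 / v) (1 - 1 / k - ((1 - 1 / k) * u + v - 1) / u)
    (1 - (1 / k ^ 2 + ((1 - 1 / k) * u + v - 1)) / v) (((1 - 1 / k) * u + v - 1) / (u * v)) hD
  generalize corr P _ D = c at c0 hc ⊢
  generalize fac L M _ _ k _ _ _ _ = f at key hc
  rcases key with h | ⟨⟨T, hT, h⟩, h'⟩
  · have e := prod_mar L M D (fun p => 1 / p) fun p => 1 / p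
    have e' : ∏ p ∈ D, mar L M (fun p => 1 / p) (fun p => 1 / p) p = 1 / (∏ p ∈ D, p : ℕ) := by
      simp [mar, prod_inv_distrib]
    have : l * c = l / (∏ p ∈ D, p : ℕ) := by
      rw [hc, h, mul_assoc, ← e, e', mul_one_div]
    rw [this]
    exact ⟨Nat.floor_le (by positivity), Nat.le_ceil _⟩
  · have hT' : T ⊆ D :=
      hT.trans (union_subset (filter_subset _ _) ((filter_subset _ _).trans (filter_subset _ _)))
    have h1 : n < ∏ p ∈ D, p :=
      h.trans_le (prod_le_prod_of_subset_of_one_le' hT' fun p hp _ => hP p (hD hp))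
    have h2 : (l : ℝ) / (∏ p ∈ D, p : ℕ) < 1 := by
      rw [div_lt_one d0]
      exact_mod_cast hl.trans_lt h1
    have g0 : 0 ≤ ∏ p ∈ (D.filter (· ∉ L)).filter (· ∉ M), (1 : ℝ) / p :=
      prod_nonneg fun _ _ => by positivity
    have g1 : ∏ p ∈ (D.filter (· ∉ L)).filter (· ∉ M), (1 : ℝ) / p ≤ 1 :=
      prod_le_one (fun _ _ => by positivity) fun p hp =>
        inv_le (hP p (hD (mem_filter.1 (mem_filter.1 hp).1).1))
    have h3 : c ≤ 1 / n := by
      rw [hc]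
      exact (mul_le_mul_of_nonneg_right h' g0).trans (mul_le_of_le_one_right (by positivity) g1)
    refine ⟨by rw [Nat.floor_eq_zero.2 h2]; simpa using mul_nonneg l0 c0, ?_⟩
    rcases Nat.eq_zero_or_pos l with rfl | hl0
    · simp
    · have h4 : 1 ≤ ⌈(l : ℝ) / (∏ p ∈ D, p : ℕ)⌉₊ :=
        Nat.ceil_pos.2 (div_pos (by exact_mod_cast hl0) d0)
      have h5 : (l : ℝ) ≤ n := by exact_mod_cast hl
      calc l * c ≤ n * (1 / n) := by gcongr
        _ = 1 := by field_simp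
        _ ≤ _ := by exact_mod_cast h4

end Pool.Agent.MP_893164_nt
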