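import Pool.Agent.MP_893164_nt.Law

/-! Product laws on pairs of sets, and couplings of a measure with itself off the diagonal. -/

noncomputable section

namespace Pool.Agent.MP_893164_nt

open Finset

theorem prod_ite_sub {P R : Finset ℕ} (hR : R ⊆ P) (a b : ℕ → ℝ) :
    ∏ p ∈ P, (if p ∈ R then a p else b p) = (∏ p ∈ R, a p) * ∏ p ∈ P \ R, b p := by
  rw [prod_ite, filter_mem_eq_inter, inter_eq_right.2 hR, sdiff_eq_filter]

theorem sum_prod_sup {P D : Finset ℕ} (hD : D ⊆ P) (a b : ℕ → ℝ) :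
    ∑ R ∈ P.powerset with D ⊆ R, ∏ p ∈ P, (if p ∈ R then a p else b p) =
      ∏ p ∈ P, (a p + if p ∈ D then 0 else b p) := by
  rw [prod_add, sum_filter]
  refine sum_congr rfl fun R hR => ?_
  split_ifs with h
  · rw [prod_ite_sub (mem_powerset.1 hR)]
    congr 1
    refine prod_congr rfl fun p hp => ?_
    rw [if_neg fun h' => (mem_sdiff.1 hp).2 (h h')]
  · obtain ⟨p, hp, hp'⟩ := not_subset.1 h
    rw [prod_eq_zero (s := P \ R) (mem_sdiff.2 ⟨hD hp, hp'⟩) (by simp [hp]), mul_zero]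

/-- The weight of one modulus in the product law on pairs. -/
def cell (S : Finset ℕ) (x y : ℕ → ℝ) (R R' : Finset ℕ) (p : ℕ) : ℝ :=
  if p ∈ R' then (if p ∈ R then (if p ∈ S then x p else 0) else (if p ∈ S then 0 else y p))
  else (if p ∈ R then (if p ∈ S then 0 else x p) else (if p ∈ S then 1 - x p else 1 - x p - y p))

/-- The product law on pairs: moduli of `S` lie in both sets or in none, the others in at most
one. -/
def pb (P S : Finset ℕ) (x y : ℕ → ℝ) (R R' : Finset ℕ) : ℝ := ∏ p ∈ P, cell S x y R R' p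

/-- The mass of the pairs containing `D` and `D'`. -/
def corr2 (P : Finset ℕ) (W : Finset ℕ → Finset ℕ → ℝ) (D D' : Finset ℕ) : ℝ :=
  ∑ R ∈ P.powerset with D ⊆ R, ∑ R' ∈ P.powerset with D' ⊆ R', W R R'

theorem pb_marg {P R : Finset ℕ} (S : Finset ℕ) (x y : ℕ → ℝ) (hR : R ⊆ P) :
    ∑ R' ∈ P.powerset, pb P S x y R R' = bern P x R := by
  have h := sum_prod_sup (empty_subset P)
    (fun p => if p ∈ R then (if p ∈ S then x p else 0) else (if p ∈ S then 0 else y p))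
    (fun p => if p ∈ R then (if p ∈ S then 0 else x p) else
      (if p ∈ S then 1 - x p else 1 - x p - y p))
  rw [filter_true_of_mem fun _ _ => empty_subset _] at h
  rw [bern, ← prod_ite_sub hR]
  refine h.trans (prod_congr rfl fun p _ => ?_)
  rw [if_neg (notMem_empty p)]
  split_ifs <;> ring

theorem pb_swap {P S : Finset ℕ} {x y : ℕ → ℝ} (h : ∀ p ∈ S, x p = y p) (R R' : Finset ℕ) :
    pb P S x y R R' = pb P S y x R' R := by
  refine prod_congr rfl fun p _ => ?_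
  unfold cell
  by_cases hp : p ∈ S
  · simp only [hp, if_true, h p hp]
    split_ifs <;> rfl
  · simp only [hp, if_false]
    split_ifs <;> ring

theorem pb_nonneg {P S : Finset ℕ} {x y : ℕ → ℝ} (hx : ∀ p, 0 ≤ x p) (hy : ∀ p, 0 ≤ y p)
    (h1 : ∀ p ∈ P, x p ≤ 1) (h2 : ∀ p ∈ P, p ∉ S → x p + y p ≤ 1) (R R' : Finset ℕ) :
    0 ≤ pb P S x y R R' := by
  refine prod_nonneg fun p hp => ?_
  unfold cell
  have := hx p
  have := hy p
  have := h1 p hp
  split_ifs with a b c c b c c <;> try linarith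
  linarith [h2 p hp c]

theorem pb_supp {P S : Finset ℕ} {x y : ℕ → ℝ} {R R' : Finset ℕ} (h : pb P S x y R R' ≠ 0) :
    ∀ p ∈ P, (p ∈ S → (p ∈ R ↔ p ∈ R')) ∧ (p ∉ S → ¬ (p ∈ R ∧ p ∈ R')) := by
  intro p hp
  have := prod_ne_zero_iff.1 h p hp
  unfold cell at this
  by_cases a : p ∈ R' <;> by_cases b : p ∈ R <;> by_cases c : p ∈ S <;> simp_all

theorem corr2_pb {P S D D' : Finset ℕ} {x y : ℕ → ℝ} (hD : D ⊆ P) (hD' : D' ⊆ P)
    (hS : ∀ p ∈ D, p ∈ D' → p ∈ S) (h : ∀ p ∈ S, x p = y p) :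
    corr2 P (pb P S x y) D D' = (∏ p ∈ D, x p) * ∏ p ∈ D' \ D, y p := by
  have h1 : ∀ R : Finset ℕ, ∑ R' ∈ P.powerset with D' ⊆ R', pb P S x y R R' =
      ∏ p ∈ P, (if p ∈ R then ((if p ∈ S then x p else 0) +
        if p ∈ D' then 0 else (if p ∈ S then 0 else x p)) else ((if p ∈ S then 0 else y p) +
        if p ∈ D' then 0 else (if p ∈ S then 1 - x p else 1 - x p - y p))) := fun R => by
    refine (sum_prod_sup hD' _ _).trans (prod_congr rfl fun p _ => ?_)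
    split_ifs <;> rfl
  have h2 : ∏ p ∈ P \ D, (if p ∈ D' \ D then y p else 1) = ∏ p ∈ D' \ D, y p := by
    rw [prod_ite_sub (sdiff_subset_sdiff hD' subset_rfl), prod_const_one, mul_one]
  rw [corr2, sum_congr rfl fun R _ => h1 R, sum_prod_sup hD, ← h2, ← prod_ite_sub hD]
  refine prod_congr rfl fun p _ => ?_
  by_cases a : p ∈ D <;> by_cases b : p ∈ D' <;> by_cases c : p ∈ S <;>
    simp only [a, b, c, mem_sdiff, if_true, if_false, not_true, not_false_iff, and_true, and_false,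
      and_self] <;> first | exact absurd (hS p a b) c | (rw [h p c]; ring) | ring

theorem corr2_sum {ι : Type} (P D D' : Finset ℕ) (s : Finset ι) (c : ι → ℝ)
    (W : ι → Finset ℕ → Finset ℕ → ℝ) :
    corr2 P (fun R R' => ∑ i ∈ s, c i * W i R R') D D' = ∑ i ∈ s, c i * corr2 P (W i) D D' := by
  unfold corr2
  simp only [mul_sum]
  rw [sum_comm]
  refine Eq.trans ?_ sum_comm
  rw [sum_comm]
  exact sum_congr rfl fun _ _ => sum_comm

theorem corr2_add (P D D' : Finset ℕ) (V W : Finset ℕ → Finset ℕ → ℝ) :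
    corr2 P (fun R R' => V R R' + W R R') D D' = corr2 P V D D' + corr2 P W D D' := by
  unfold corr2
  simp only [sum_add_distrib]

theorem zero_diag (G : Finset ℕ) (z : ℕ → ℝ) (hz : ∀ r, 0 ≤ z r) {Λ : ℝ} (hΛ : Λ = ∑ r ∈ G, z r)
    (h0 : 0 < Λ) (h4 : ∀ r ∈ G, 4 * z r ≤ Λ) :
    ∃ π : ℕ → ℕ → ℝ, (∀ r t, π r t = π t r) ∧ (∀ r t, 0 ≤ π r t) ∧ (∀ r, π r r = 0) ∧
      (∀ r ∈ G, ∑ t ∈ G, π r t = z r) ∧ (∀ r t, π r t ≤ 2 / Λ * (z r * z t)) ∧
      ∀ r t, π r t ≠ 0 → r ∈ G ∧ t ∈ G := by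
  obtain ⟨y, hy⟩ : ∃ y : ℕ → ℝ, y = fun r => z r / Λ := ⟨_, rfl⟩
  have y0 : ∀ r, 0 ≤ y r := fun r => by rw [hy]; exact div_nonneg (hz r) h0.le
  have y4 : ∀ r ∈ G, y r ≤ 1 / 4 := fun r hr => by
    rw [hy, div_le_iff₀ h0]; linarith [h4 r hr]
  have y1 : ∑ r ∈ G, y r = 1 := by rw [hy, ← sum_div, ← hΛ, div_self h0.ne']
  have d0 : ∀ r ∈ G, 0 < 1 - 2 * y r := fun r hr => by linarith [y4 r hr]
  obtain ⟨A, hA⟩ : ∃ A, A = ∑ r ∈ G, y r * (y r / (1 - 2 * y r)) := ⟨_, rfl⟩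
  obtain ⟨B, hB⟩ : ∃ B, B = ∑ r ∈ G, y r / (1 - 2 * y r) := ⟨_, rfl⟩
  have B0 : 0 ≤ B := hB ▸ sum_nonneg fun r hr => div_nonneg (y0 r) (d0 r hr).le
  have A0 : 0 ≤ A := hA ▸ sum_nonneg fun r hr => mul_nonneg (y0 r) (div_nonneg (y0 r) (d0 r hr).le)
  have AB : A ≤ 1 / 4 * B := by
    rw [hA, hB, mul_sum]
    exact sum_le_sum fun r hr =>
      mul_le_mul_of_nonneg_right (y4 r hr) (div_nonneg (y0 r) (d0 r hr).le)
  obtain ⟨F, hF⟩ : ∃ F, F = A / (1 + B) := ⟨_, rfl⟩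
  have F0 : 0 ≤ F := hF ▸ div_nonneg A0 (by linarith)
  have F1 : F ≤ 1 / 4 := by rw [hF, div_le_iff₀ (by linarith)]; linarith
  have F2 : F * (1 + B) = A := by rw [hF]; field_simp
  obtain ⟨f, hf⟩ : ∃ f : ℕ → ℝ, f = fun r => (y r - F) / (1 - 2 * y r) := ⟨_, rfl⟩
  have f1 : ∀ r ∈ G, f r ≤ 1 / 2 := fun r hr => by
    rw [hf, div_le_iff₀ (d0 r hr)]; linarith [y4 r hr]
  have f2 : ∀ r ∈ G, -(1 / 2) ≤ f r := fun r hr => by
    rw [hf, le_div_iff₀ (d0 r hr)]; linarith [y4 r hr, y0 r]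
  have f3 : ∀ r ∈ G, f r * (1 - 2 * y r) = y r - F := fun r hr => by
    rw [hf]; exact div_mul_cancel₀ _ (d0 r hr).ne'
  have f4 : ∑ r ∈ G, y r * f r = F := by
    have : ∑ r ∈ G, y r * f r = A - F * B := by
      rw [hA, hB, mul_sum, ← sum_sub_distrib, hf]
      exact sum_congr rfl fun r _ => by ring
    linarith
  refine ⟨fun r t => if r ∈ G ∧ t ∈ G ∧ r ≠ t then z r * z t / Λ * (1 + f r + f t) else 0,
    fun r t => if_congr (by tauto) (by ring) rfl, fun r t => ?_, fun r => by simp,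
    fun r hr => ?_, fun r t => ?_, fun r t h => ?_⟩
  · beta_reduce
    split_ifs with h
    · exact mul_nonneg (div_nonneg (mul_nonneg (hz r) (hz t)) h0.le)
        (by linarith [f2 r h.1, f2 t h.2.1])
    · exact le_rfl
  · have e : ∀ t ∈ G, (if r ∈ G ∧ t ∈ G ∧ r ≠ t then z r * z t / Λ * (1 + f r + f t) else 0) =
        z r * ((1 + f r) * y t + y t * f t) -
          if r = t then z r * ((1 + f r) * y r + y r * f r) else 0 := fun t ht => by
      by_cases h : r = t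
      · simp [h]
      · rw [if_pos ⟨hr, ht, h⟩, if_neg h, hy]
        ring
    rw [sum_congr rfl e, sum_sub_distrib, sum_ite_eq, if_pos hr, ← mul_sum, sum_add_distrib,
      ← mul_sum, y1, f4, ← mul_sub]
    have : (1 + f r) * 1 + F - ((1 + f r) * y r + y r * f r) = 1 := by linarith [f3 r hr]
    rw [this, mul_one]
  · have := div_nonneg (mul_nonneg (hz r) (hz t)) h0.le
    have e : 2 / Λ * (z r * z t) = z r * z t / Λ * 2 := by ring
    rw [e]
    beta_reduce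
    split_ifs with h
    · exact mul_le_mul_of_nonneg_left (by linarith [f1 r h.1, f1 t h.2.1]) this
    · linarith
  · by_contra h'
    exact h (if_neg (by tauto))

theorem two_stage (A B H : Finset ℕ) (s : ℕ → ℝ) (hs : ∀ r, 0 ≤ s r) (hB : B ⊆ H)
    (hd : Disjoint A H) {c : ℝ} (c0 : 0 < c) (hc : ∑ r ∈ A, s r + c ≤ ∑ r ∈ B, s r)
    (h4 : ∀ r ∈ H, 4 * s r ≤ c) :
    ∃ π : ℕ → ℕ → ℝ, (∀ r t, π r t = π t r) ∧ (∀ r t, 0 ≤ π r t) ∧ (∀ r, π r r = 0) ∧
      (∀ r ∈ A ∪ H, ∑ t ∈ A ∪ H, π r t = s r) ∧ (∀ r t, π r t ≤ 4 / c * (s r * s t)) ∧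
      ∀ r t, π r t ≠ 0 → (r ∈ A ∧ t ∈ B) ∨ (r ∈ B ∧ t ∈ A) ∨ (r ∈ H ∧ t ∈ H) := by
  obtain ⟨a, ha⟩ : ∃ a, a = ∑ r ∈ A, s r := ⟨_, rfl⟩
  obtain ⟨b, hb⟩ : ∃ b, b = ∑ r ∈ B, s r := ⟨_, rfl⟩
  rw [← ha, ← hb] at hc
  have a0 : 0 ≤ a := ha ▸ sum_nonneg fun r _ => hs r
  have b0 : 0 < b := by linarith
  have q0 : 0 ≤ a / b := div_nonneg a0 b0.le
  have q1 : a / b ≤ 1 := (div_le_one b0).2 (by linarith)
  have nA : ∀ r ∈ H, r ∉ A := fun r hr h => disjoint_left.1 hd h hr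
  have z0 : ∀ r, 0 ≤ s r - if r ∈ B then s r * (a / b) else 0 := fun r => by
    split_ifs
    · nlinarith [hs r]
    · linarith [hs r]
  have z1 : ∀ r, (s r - if r ∈ B then s r * (a / b) else 0) ≤ s r := fun r => by
    split_ifs
    · nlinarith [hs r]
    · linarith
  have z2 : c ≤ ∑ r ∈ H, (s r - if r ∈ B then s r * (a / b) else 0) := by
    rw [sum_sub_distrib, sum_ite_mem, inter_eq_right.2 hB, ← sum_mul, ← hb,
      mul_div_cancel₀ _ b0.ne']
    have : b ≤ ∑ r ∈ H, s r := hb ▸ sum_le_sum_of_subset_of_nonneg hB fun r _ _ => hs r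
    linarith
  obtain ⟨π, p1, p2, p3, p4, p5, p6⟩ := zero_diag H _ z0 rfl (c0.trans_le z2)
    fun r hr => by linarith [z1 r, h4 r hr]
  have w0 : ∀ r t, 0 ≤ s r * s t / b := fun r t => div_nonneg (mul_nonneg (hs r) (hs t)) b0.le
  refine ⟨fun r t => (if r ∈ A ∧ t ∈ B then s r * s t / b else 0) +
    (if r ∈ B ∧ t ∈ A then s r * s t / b else 0) + π r t, fun r t => ?_, fun r t => ?_,
    fun r => ?_, fun r hr => ?_, fun r t => ?_, fun r t h => ?_⟩
  · beta_reduce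
    rw [p1 r t, add_comm (if r ∈ A ∧ t ∈ B then _ else _), mul_comm (s t)]
    congr 2 <;> exact if_congr and_comm rfl rfl
  · beta_reduce
    have := w0 r t
    have := p2 r t
    split_ifs <;> linarith
  · beta_reduce
    rw [if_neg fun h => nA r (hB h.2) h.1, if_neg fun h => nA r (hB h.1) h.2, p3]
    norm_num
  · have e : ∑ t ∈ A ∪ H, π r t = ∑ t ∈ H, π r t :=
      (sum_subset subset_union_right fun t _ ht => by_contra fun h => ht (p6 r t h).2).symm
    rw [sum_add_distrib, sum_add_distrib, e]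
    rcases mem_union.1 hr with h | h
    · have h1 : r ∉ H := disjoint_left.1 hd h
      have h2 : r ∉ B := fun h' => h1 (hB h')
      have h3 : ∑ t ∈ H, π r t = 0 := sum_eq_zero fun t _ => by_contra fun h => h1 (p6 r t h).1
      simp only [h, h2, h3, true_and, false_and, if_false, sum_const_zero, add_zero]
      rw [sum_ite_mem, inter_eq_right.2 (hB.trans subset_union_right), ← sum_div, ← mul_sum, ← hb,
        mul_div_cancel_right₀ _ b0.ne']
    · rw [p4 r h]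
      by_cases h2 : r ∈ B
      · simp only [nA r h, h2, true_and, false_and, if_false, if_true, sum_const_zero, zero_add]
        rw [sum_ite_mem, inter_eq_right.2 subset_union_left, ← sum_div, ← mul_sum, ← ha]
        ring
      · simp [nA r h, h2]
  · have m0 := mul_nonneg (hs r) (hs t)
    have e1 : s r * s t / b ≤ 1 / c * (s r * s t) := by
      rw [div_eq_mul_one_div, mul_comm]
      exact mul_le_mul_of_nonneg_right (one_div_le_one_div_of_le c0 (by linarith)) m0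
    have e2 : π r t ≤ 2 / c * (s r * s t) := (p5 r t).trans (mul_le_mul
      (div_le_div_of_nonneg_left zero_le_two c0 z2) (mul_le_mul (z1 r) (z1 t) (z0 t) (hs r))
      (mul_nonneg (z0 r) (z0 t)) (by positivity))
    have e3 : 4 / c * (s r * s t) = 1 / c * (s r * s t) + 1 / c * (s r * s t) +
      2 / c * (s r * s t) := by ring
    have := w0 r t
    beta_reduce
    split_ifs <;> linarith
  · by_contra h'
    push Not at h'
    refine h ?_
    beta_reduce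
    rw [if_neg fun h => h'.1 h.1 h.2, if_neg fun h => h'.2.1 h.1 h.2,
      by_contra fun h : π r t ≠ 0 => h'.2.2 (p6 r t h).1 (p6 r t h).2]
    norm_num

/-- Couplings of `s` with itself that are diagonal exactly on `S`. -/
def Coup (G S : Finset ℕ) (s : ℕ → ℝ) (π : ℕ → ℕ → ℝ) : Prop :=
  (∀ r t, π r t = π t r) ∧ (∀ r t, 0 ≤ π r t) ∧ (∀ r ∈ G, ∑ t ∈ G, π r t = s r) ∧
    ∀ r t, π r t ≠ 0 → ((r ∈ S ∨ t ∈ S) ↔ r = t)

theorem coup_of {G S : Finset ℕ} {s : ℕ → ℝ} (hs : ∀ r, 0 ≤ s r) {π : ℕ → ℕ → ℝ}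
    (p1 : ∀ r t, π r t = π t r) (p2 : ∀ r t, 0 ≤ π r t) (p3 : ∀ r, π r r = 0)
    (p4 : ∀ r ∈ G \ S, ∑ t ∈ G \ S, π r t = s r) (p6 : ∀ r t, π r t ≠ 0 → r ∉ S ∧ t ∉ S) :
    ∃ κ, Coup G S s κ ∧ ∀ r t, r ≠ t → κ r t = π r t := by
  refine ⟨fun r t => π r t + if r = t ∧ r ∈ S then s r else 0, ⟨fun r t => ?_, fun r t => ?_,
    fun r hr => ?_, fun r t h => ?_⟩, fun r t h => by simp [h]⟩
  · by_cases h : r = t
    · rw [h]
    · simp [h, Ne.symm h, p1 r t]
  · have := p2 r t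
    have := hs r
    beta_reduce
    split_ifs <;> linarith
  · rw [sum_add_distrib]
    by_cases h : r ∈ S
    · rw [sum_eq_zero fun t _ => by_contra fun h' => (p6 r t h').1 h]
      simp [h, hr]
    · rw [← sum_subset (sdiff_subset (t := S)) fun t ht ht' => by_contra fun h' =>
        ht' (mem_sdiff.2 ⟨ht, (p6 r t h').2⟩), p4 r (mem_sdiff.2 ⟨hr, h⟩)]
      simp [h]
  · by_cases e : r = t
    · subst e
      have : r ∈ S := by_contra fun h' => h (by simp [h', p3])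
      simp [this]
    · have := p6 r t (by simpa [e] using h)
      tauto

end Pool.Agent.MP_893164_nt
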