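import Pool.Agent.MP_893164_nt.Pair

/-! The law on pairs of nonempty sets of moduli with prescribed intersection masses. -/

noncomputable section

namespace Pool.Agent.MP_893164_nt

open Finset

theorem pd_nonneg (X : Finset ℕ) (r : ℕ) : 0 ≤ ∏ p ∈ X, dl r p :=
  prod_nonneg fun p _ => dl_nonneg r p

theorem pd_le_one (X : Finset ℕ) (r : ℕ) : ∏ p ∈ X, dl r p ≤ 1 :=
  prod_le_one (fun p _ => dl_nonneg r p) fun p _ => dl_le r p

theorem pd_le {X : Finset ℕ} {p : ℕ} (hp : p ∈ X) (r : ℕ) : ∏ p ∈ X, dl r p ≤ dl r p := by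
  simpa using prod_le_sub (singleton_subset_iff.2 hp) (dl_nonneg r) fun p _ => dl_le r p

theorem pd_two {X : Finset ℕ} {p q : ℕ} (hp : p ∈ X) (hq : q ∈ X) (h : p ≠ q) (r : ℕ) :
    ∏ p ∈ X, dl r p = 0 := by
  by_cases hr : p = r
  · exact prod_eq_zero hq (by simp [dl, ← hr, h.symm])
  · exact prod_eq_zero hp (by simp [dl, hr])

/-- Mass of `(X, Y)` under the choice of one pair. -/
def two (G : Finset ℕ) (π : ℕ → ℕ → ℝ) (X Y : Finset ℕ) : ℝ :=
  ∑ r ∈ G, ∑ t ∈ G, π r t * ((∏ p ∈ X, dl r p) * ∏ p ∈ Y, dl t p)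

section
variable {G S X Y : Finset ℕ} {s : ℕ → ℝ} {π : ℕ → ℕ → ℝ}

theorem two_swap (h : Coup G S s π) (X Y : Finset ℕ) : two G π X Y = two G π Y X := by
  unfold two
  rw [sum_comm]
  exact sum_congr rfl fun r _ => sum_congr rfl fun t _ => by rw [h.1 t r]; ring

theorem two_nonneg (h : Coup G S s π) (X Y : Finset ℕ) : 0 ≤ two G π X Y :=
  sum_nonneg fun r _ => sum_nonneg fun t _ =>
    mul_nonneg (h.2.1 r t) (mul_nonneg (pd_nonneg _ _) (pd_nonneg _ _))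

theorem two_empty (h : Coup G S s π) : two G π ∅ ∅ = ∑ r ∈ G, s r :=
  sum_congr rfl fun r hr => by simpa using h.2.2.1 r hr

theorem two_left (h : Coup G S s π) {p : ℕ} (hp : p ∈ G) : two G π {p} ∅ = s p := by
  have : ∀ r ∈ G, ∑ t ∈ G, π r t * ((∏ p ∈ {p}, dl r p) * ∏ p ∈ ∅, dl t p) =
      if p = r then s r else 0 := fun r hr => by
    rw [← h.2.2.1 r hr]
    by_cases e : p = r <;> simp [dl, e]
  rw [two, sum_congr rfl this, sum_ite_eq, if_pos hp]

theorem two_single (h : Coup G S s π) {p : ℕ} (hp : p ∈ G) (hd : Disjoint X Y)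
    (e : X ∪ Y = {p}) : two G π X Y = s p := by
  have h1 : X ⊆ {p} := e ▸ subset_union_left
  have h2 : Y ⊆ {p} := e ▸ subset_union_right
  rcases subset_singleton_iff.1 h1 with rfl | rfl <;> rcases subset_singleton_iff.1 h2 with rfl | rfl
  · simp at e
  · rw [two_swap h, two_left h hp]
  · exact two_left h hp
  · simp at hd

theorem two_zero {p q : ℕ} (hp : p ∈ X) (hq : q ∈ X) (h : p ≠ q) : two G π X Y = 0 :=
  sum_eq_zero fun r _ => sum_eq_zero fun t _ => by rw [pd_two hp hq h, zero_mul, mul_zero]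

theorem two_le_left (h : Coup G S s π) {p : ℕ} (hp : p ∈ X) (hG : p ∈ G) :
    two G π X Y ≤ s p := by
  rw [← two_left h hG]
  refine sum_le_sum fun r _ => sum_le_sum fun t _ => mul_le_mul_of_nonneg_left ?_ (h.2.1 r t)
  rw [prod_singleton, prod_empty]
  exact mul_le_mul (pd_le hp r) (pd_le_one _ _) (pd_nonneg _ _) (dl_nonneg _ _)

theorem two_le_one (h : Coup G S s π) {p : ℕ} (hp : p ∈ X ∪ Y) (hG : p ∈ G) :
    two G π X Y ≤ s p := by
  rcases mem_union.1 hp with hp | hp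
  · exact two_le_left h hp hG
  · rw [two_swap h]
    exact two_le_left h hp hG

theorem two_le_cross (h : Coup G S s π) {p q : ℕ} (hp : p ∈ X) (hq : q ∈ Y) :
    two G π X Y ≤ π p q := by
  refine le_trans (b := ∑ r ∈ G, ∑ t ∈ G, π r t * (dl r p * dl t q)) ?_ ?_
  · exact sum_le_sum fun r _ => sum_le_sum fun t _ => mul_le_mul_of_nonneg_left
      (mul_le_mul (pd_le hp r) (pd_le hq t) (pd_nonneg _ _) (dl_nonneg _ _)) (h.2.1 r t)
  · have := h.2.1 p q
    simp only [dl, mul_ite, mul_one, mul_zero, sum_ite_eq, sum_ite_irrel, sum_const_zero]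
    split_ifs <;> linarith

theorem two_le_pair (h : Coup G S s π) {p q : ℕ} (hp : p ∈ X ∪ Y) (hq : q ∈ X ∪ Y) (e : p ≠ q) :
    two G π X Y ≤ π p q := by
  rcases mem_union.1 hp with hp | hp <;> rcases mem_union.1 hq with hq | hq
  · rw [two_zero hp hq e]
    exact h.2.1 p q
  · exact two_le_cross h hp hq
  · rw [h.1 p q]
    exact two_le_cross h hq hp
  · rw [two_swap h, two_zero hp hq e]
    exact h.2.1 p q

theorem two_three (h : Coup G S s π) {p q r : ℕ} (hp : p ∈ X ∪ Y) (hq : q ∈ X ∪ Y)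
    (hr : r ∈ X ∪ Y) (e1 : p ≠ q) (e2 : p ≠ r) (e3 : q ≠ r) : two G π X Y = 0 := by
  rcases mem_union.1 hp with hp | hp <;> rcases mem_union.1 hq with hq | hq <;>
    rcases mem_union.1 hr with hr | hr <;>
    first
      | exact two_zero hp hq e1
      | exact two_zero hp hr e2
      | exact two_zero hq hr e3
      | exact (two_swap h X Y).trans (two_zero hp hq e1)
      | exact (two_swap h X Y).trans (two_zero hp hr e2)
      | exact (two_swap h X Y).trans (two_zero hq hr e3)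

end

/-- Weights of the single modulus in the plain part. -/
def sw (L : Finset ℕ) (k v : ℝ) (r : ℕ) : ℝ :=
  if r ∈ L then (1 - 1 / k) * (1 / r) else (1 - 1 / k ^ 2 / v) * (1 / r)

theorem fac2_cases {L M S X Y : Finset ℕ} {n : ℕ} {k v K : ℝ} {μ π : ℕ → ℕ → ℝ}
    (hT : X ∪ Y ⊆ L ∪ M) (hXY : Disjoint X Y) (hd : ∀ q ∈ M, q ∉ L) (hn : 0 < n) (k1 : 1 < k)
    (hk : ∀ p ∈ L, k ≤ p) (h0 : ∀ p ∈ L ∪ M, 0 < p) (hv : v = ∑ p ∈ M, 1 / (p : ℝ)) (v0 : 0 < v)
    (ht : (1 - 1 / k) * ∑ p ∈ L, 1 / (p : ℝ) + v = 1) (K1 : 1 ≤ K) (Kv : 1 / v ≤ K)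
    (hμ : Coup M S (fun q => 1 / v * (1 / q)) μ) (hπ : Coup (L ∪ M) S (sw L k v) π)
    (bμ : ∀ r t, r ≠ t → μ r t ≤ K * (1 / r * (1 / t)))
    (bπ : ∀ r t, r ≠ t → π r t ≤ K * (1 / r * (1 / t)))
    (sπ : ∀ r t, r ≠ t → π r t ≠ 0 → 2 * K * n < (r : ℝ) * t)
    (h12 : ∀ p ∈ L ∪ M, ∀ q ∈ M, 2 * K * n < (p : ℝ) * q)
    (h111 : ∀ p ∈ L, ∀ q ∈ L, ∀ r ∈ L, k * n ≤ (p : ℝ) * q * r) {f : ℝ}
    (hf : f = 1 / k ^ 2 * (∏ p ∈ X ∪ Y with p ∈ L, k / p) *
      two M μ (X.filter (· ∉ L)) (Y.filter (· ∉ L)) + two (L ∪ M) π X Y) :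
    f = ∏ p ∈ X ∪ Y, (1 : ℝ) / p ∨ (∃ T ⊆ X ∪ Y, n < ∏ p ∈ T, p) ∧ f ≤ 1 / n := by
  have n0 : (0 : ℝ) < n := by exact_mod_cast hn
  have k0 : 0 < k := by linarith
  have p0 : ∀ p ∈ X ∪ Y, (0 : ℝ) < p := fun p hp => by exact_mod_cast h0 p (hT hp)
  have a0 : ∀ p : ℕ, 0 ≤ k / p := fun p => by positivity
  have a1 : ∀ p ∈ (X ∪ Y).filter (· ∈ L), k / p ≤ 1 := fun p hp =>
    (div_le_one (p0 p (mem_filter.1 hp).1)).2 (hk p (mem_filter.1 hp).2)
  have b0 : 0 ≤ ∏ p ∈ X ∪ Y with p ∈ L, k / p := prod_nonneg fun p _ => a0 p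
  have e1 : 1 / k ^ 2 ≤ 1 := by
    rw [div_le_one (by positivity)]
    nlinarith
  have e2 : 1 / k ^ 2 * k ≤ 1 := by
    rw [div_mul_eq_mul_div, div_le_one (by positivity)]
    nlinarith
  have fin : ∀ p ∈ X ∪ Y, ∀ q ∈ X ∪ Y, p ≠ q → 2 * K * n < (p : ℝ) * q →
      f ≤ 2 * K * (1 / p * (1 / q)) → (∃ T ⊆ X ∪ Y, n < ∏ p ∈ T, p) ∧ f ≤ 1 / n := by
    intro p hp q hq e h1 h2
    have := p0 p hp
    have := p0 q hq
    refine ⟨⟨{p, q}, insert_subset hp (singleton_subset_iff.2 hq), ?_⟩, h2.trans ?_⟩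
    · rw [prod_pair e]
      have : (n : ℝ) < p * q := by nlinarith
      exact_mod_cast this
    · rw [one_div_mul_one_div, mul_one_div, div_le_div_iff₀ (by positivity) n0]
      linarith
  by_cases hq : ∃ q ∈ X ∪ Y, q ∉ L
  · obtain ⟨q, hq, hqL⟩ := hq
    have hqM : q ∈ M := (mem_union.1 (hT hq)).resolve_left hqL
    have q0 := p0 q hq
    have hq' : q ∈ X.filter (· ∉ L) ∪ Y.filter (· ∉ L) := by
      rw [← filter_union]
      exact mem_filter.2 ⟨hq, hqL⟩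
    by_cases hp : ∃ p ∈ X ∪ Y, p ≠ q
    · obtain ⟨p, hp, e⟩ := hp
      have := p0 p hp
      refine Or.inr (fin p hp q hq e (h12 p (hT hp) q hqM) ?_)
      have c1 := (two_le_pair hπ hp hq e).trans (bπ p q e)
      have c0 := two_nonneg hμ (X.filter (· ∉ L)) (Y.filter (· ∉ L))
      have c2 : 1 / k ^ 2 * (∏ p ∈ X ∪ Y with p ∈ L, k / p) *
          two M μ (X.filter (· ∉ L)) (Y.filter (· ∉ L)) ≤ K * (1 / p * (1 / q)) := by
        by_cases hpL : p ∈ L
        · have c3 := prod_le_sub (singleton_subset_iff.2 (mem_filter.2 ⟨hp, hpL⟩)) a0 a1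
          rw [prod_singleton] at c3
          have c4 := two_le_one hμ hq' hqM
          calc _ ≤ 1 / k ^ 2 * (k / p) * (1 / v * (1 / q)) := by gcongr
            _ = 1 / k ^ 2 * k * (1 / v * (1 / p * (1 / q))) := by ring
            _ ≤ 1 * (K * (1 / p * (1 / q))) := by gcongr
            _ = _ := one_mul _
        · have hp' : p ∈ X.filter (· ∉ L) ∪ Y.filter (· ∉ L) := by
            rw [← filter_union]
            exact mem_filter.2 ⟨hp, hpL⟩
          have c3 := prod_le_one (fun p _ => a0 p) a1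
          have c4 := (two_le_pair hμ hp' hq' e).trans (bμ p q e)
          calc _ ≤ 1 * 1 * (K * (1 / p * (1 / q))) := by gcongr
            _ = _ := by ring
      linarith
    · push Not at hp
      have e : X ∪ Y = {q} := eq_singleton_iff_unique_mem.2 ⟨hq, hp⟩
      have e' : X.filter (· ∉ L) ∪ Y.filter (· ∉ L) = {q} := by
        rw [← filter_union, e, filter_singleton, if_pos hqL]
      left
      rw [hf, two_single hπ (hT hq) hXY e, two_single hμ hqM (disjoint_filter_filter hXY) e', e,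
        filter_singleton, if_neg hqL, prod_empty, prod_singleton, sw, if_neg hqL]
      ring
  · push Not at hq
    have x1 : X.filter (· ∉ L) = ∅ :=
      filter_false_of_mem fun p hp h => h (hq p (mem_union_left _ hp))
    have x2 : Y.filter (· ∉ L) = ∅ :=
      filter_false_of_mem fun p hp h => h (hq p (mem_union_right _ hp))
    have x3 : (X ∪ Y).filter (· ∈ L) = X ∪ Y := filter_true_of_mem hq
    rw [x3] at a1
    rw [x1, x2, x3, two_empty hμ, ← mul_sum, ← hv, one_div_mul_cancel v0.ne', mul_one] at hf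
    by_cases h3 : 2 < (X ∪ Y).card
    · obtain ⟨p, q, r, hp, hq', hr, hpq, hpr, hqr⟩ := two_lt_card_iff.1 h3
      have hT : ({p, q, r} : Finset ℕ) ⊆ X ∪ Y :=
        insert_subset hp (insert_subset hq' (singleton_subset_iff.2 hr))
      have e : ∀ x : ℕ → ℝ, ∏ s ∈ ({p, q, r} : Finset ℕ), x s = x p * (x q * x r) := fun x => by
        rw [prod_insert (by simp [hpq, hpr]), prod_pair hqr]
      have h1 := h111 p (hq p hp) q (hq q hq') r (hq r hr)
      have b1 := p0 p hp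
      have b2 := p0 q hq'
      have b3 := p0 r hr
      refine Or.inr ⟨⟨{p, q, r}, hT, ?_⟩, ?_⟩
      · have : (n : ℝ) < ∏ s ∈ ({p, q, r} : Finset ℕ), (s : ℝ) := by
          rw [e]
          nlinarith
        rw [← Nat.cast_prod] at this
        exact Nat.cast_lt.1 this
      · rw [two_three hπ hp hq' hr hpq hpr hqr, add_zero] at hf
        have h2 := prod_le_sub hT a0 a1
        rw [e] at h2
        calc f = 1 / k ^ 2 * ∏ p ∈ X ∪ Y, k / p := hf
          _ ≤ 1 / k ^ 2 * (k / p * (k / q * (k / r))) := by gcongr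
          _ = k / (p * q * r) := by field_simp
          _ ≤ 1 / n := by
            rw [div_le_div_iff₀ (by positivity) n0]
            linarith
    · have h3' : (X ∪ Y).card = 0 ∨ (X ∪ Y).card = 1 ∨ (X ∪ Y).card = 2 := by omega
      rcases h3' with h | h | h
      · have e := card_eq_zero.1 h
        obtain ⟨rfl, rfl⟩ := union_eq_empty.1 e
        left
        have s1 : ∑ r ∈ L, sw L k v r = (1 - 1 / k) * ∑ p ∈ L, 1 / (p : ℝ) := by
          rw [mul_sum]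
          exact sum_congr rfl fun r hr => if_pos hr
        have s2 : ∑ r ∈ M, sw L k v r = (1 - 1 / k ^ 2 / v) * v := by
          rw [hv, mul_sum]
          exact sum_congr rfl fun r hr => if_neg (hd r hr)
        rw [hf, e, two_empty hπ, sum_union (disjoint_right.2 hd), s1, s2, prod_empty, prod_empty,
          sub_mul 1 _ v, div_mul_cancel₀ _ v0.ne']
        linarith
      · obtain ⟨p, e⟩ := card_eq_one.1 h
        have hp : p ∈ X ∪ Y := e ▸ mem_singleton_self p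
        left
        rw [hf, two_single hπ (hT hp) hXY e, e, prod_singleton, prod_singleton, sw,
          if_pos (hq p hp)]
        field_simp
        ring
      · obtain ⟨p, q, hpq, e⟩ := card_eq_two.1 h
        have hp : p ∈ X ∪ Y := by simp [e]
        have hq' : q ∈ X ∪ Y := by simp [e]
        have b1 := p0 p hp
        have b2 := p0 q hq'
        have c1 := two_le_pair hπ hp hq' hpq
        have c2 : 1 / k ^ 2 * ∏ p ∈ X ∪ Y, k / p = 1 / p * (1 / q) := by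
          rw [e, prod_pair hpq]
          field_simp
        rw [c2] at hf
        by_cases z : π p q = 0
        · left
          rw [hf, e, prod_pair hpq]
          linarith [two_nonneg hπ X Y]
        · refine Or.inr (fin p hp q hq' hpq (sπ p q hpq z) ?_)
          have c3 := bπ p q hpq
          have c4 : (0 : ℝ) ≤ 1 / p * (1 / q) := by positivity
          nlinarith

/-- Marginals `y` on `G` and the natural ones elsewhere. -/
def mg (G : Finset ℕ) (y : ℕ → ℝ) (p : ℕ) : ℝ := if p ∈ G then y p else 1 / p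

/-- Marginals of the rich part. -/
def rm (L : Finset ℕ) (k : ℝ) (q p : ℕ) : ℝ := if p ∈ L then k / p else dl q p

theorem agree {G S : Finset ℕ} {s : ℕ → ℝ} {π : ℕ → ℕ → ℝ} (h : Coup G S s π) {r t : ℕ}
    (h0 : π r t ≠ 0) : (∀ p ∈ S, dl r p = dl t p) ∧ ∀ p, p ∉ S → dl r p + dl t p ≤ 1 := by
  have := h.2.2.2 r t h0
  refine ⟨fun p hp => ?_, fun p hp => ?_⟩
  · by_cases e : r = t
    · rw [e]
    · rw [dl, dl, if_neg fun h' : p = r => e (this.1 (Or.inl (h' ▸ hp))),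
        if_neg fun h' : p = t => e (this.1 (Or.inr (h' ▸ hp)))]
  · unfold dl
    split_ifs with a b
    · subst a
      subst b
      exact absurd (this.2 rfl) (by simpa using hp)
    all_goals norm_num

/-- A mixture of product laws on pairs along a coupling. -/
def pmix (P S G H : Finset ℕ) (c : ℝ) (π : ℕ → ℕ → ℝ) (x : ℕ → ℕ → ℝ) (R R' : Finset ℕ) : ℝ :=
  ∑ s ∈ H ×ˢ H, c * π s.1 s.2 * pb P S (mg G (x s.1)) (mg G (x s.2)) R R'

theorem pmix_spec {P S G H : Finset ℕ} {c : ℝ} {s : ℕ → ℝ} {π x : ℕ → ℕ → ℝ} (hc : 0 ≤ c)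
    (h : Coup H S s π) (hP : ∀ p ∈ P, 2 ≤ p) (x0 : ∀ r p, 0 ≤ x r p)
    (x1 : ∀ r, ∀ p ∈ G, x r p ≤ 1) (x2 : ∀ r t, π r t ≠ 0 → ∀ p ∈ S, x r p = x t p)
    (x3 : ∀ r t, π r t ≠ 0 → ∀ p ∈ G, p ∉ S → x r p + x t p ≤ 1) :
    (∀ R R', 0 ≤ pmix P S G H c π x R R') ∧
      (∀ R R', pmix P S G H c π x R R' = pmix P S G H c π x R' R) ∧
      (∀ R ⊆ P, ∑ R' ∈ P.powerset, pmix P S G H c π x R R' =
        ∑ r ∈ H, c * s r * bern P (mg G (x r)) R) ∧
      (∀ R R', pmix P S G H c π x R R' ≠ 0 →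
        ∀ p ∈ P, (p ∈ S → (p ∈ R ↔ p ∈ R')) ∧ (p ∉ S → ¬ (p ∈ R ∧ p ∈ R'))) ∧
      ∀ D ⊆ P, ∀ D' ⊆ P, (∀ p ∈ D, p ∈ D' → p ∈ S) → corr2 P (pmix P S G H c π x) D D' =
        c * (∑ r ∈ H, ∑ t ∈ H, π r t * ((∏ p ∈ D with p ∈ G, x r p) *
          ∏ p ∈ D' \ D with p ∈ G, x t p)) *
          ((∏ p ∈ D with p ∉ G, (1 : ℝ) / p) * ∏ p ∈ D' \ D with p ∉ G, (1 : ℝ) / p) := by
  have m0 : ∀ r p, 0 ≤ mg G (x r) p := fun r p => by
    unfold mg
    split_ifs
    exacts [x0 r p, by positivity]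
  have m2 : ∀ r t, π r t ≠ 0 → ∀ p ∈ S, mg G (x r) p = mg G (x t) p := fun r t h0 p hp => by
    rw [mg, mg, x2 r t h0 p hp]
  have half : ∀ p ∈ P, (1 : ℝ) / p ≤ 1 / 2 := fun p hp =>
    one_div_le_one_div_of_le two_pos (by exact_mod_cast hP p hp)
  refine ⟨fun R R' => sum_nonneg fun s _ => ?_, fun R R' => ?_, fun R hR => ?_,
    fun R R' h0 => ?_, fun D hD D' hD' hS => ?_⟩
  · by_cases h0 : π s.1 s.2 = 0
    · simp [h0]
    · refine mul_nonneg (mul_nonneg hc (h.2.1 _ _))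
        (pb_nonneg (m0 _) (m0 _) (fun p hp => ?_) (fun p hp hS => ?_) _ _)
      · unfold mg
        split_ifs with a
        exacts [x1 _ p a, by linarith [half p hp]]
      · unfold mg
        split_ifs with a
        exacts [x3 _ _ h0 p a hS, by linarith [half p hp]]
  · unfold pmix
    rw [sum_product, sum_product, sum_comm]
    refine sum_congr rfl fun r _ => sum_congr rfl fun t _ => ?_
    by_cases h0 : π t r = 0
    · simp [h0, h.1 r t]
    · simp only [h.1 r t, pb_swap (m2 t r h0) R R']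
  · unfold pmix
    rw [sum_comm, sum_product]
    refine sum_congr rfl fun r hr => ?_
    simp only [← mul_sum, pb_marg _ _ _ hR, ← sum_mul, h.2.2.1 r hr]
  · obtain ⟨s, -, hs⟩ := exists_ne_zero_of_sum_ne_zero h0
    exact pb_supp (right_ne_zero_of_mul hs)
  · unfold pmix
    rw [corr2_sum, sum_product, mul_sum, sum_mul]
    refine sum_congr rfl fun r _ => ?_
    rw [mul_sum, sum_mul]
    refine sum_congr rfl fun t _ => ?_
    by_cases h0 : π r t = 0
    · simp [h0]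
    · rw [corr2_pb hD hD' hS (m2 r t h0)]
      simp only [mg, prod_ite]
      ring

/-- Exact mass for small products, small mass for large products. -/
def Good (n : ℕ) (T : Finset ℕ) (c : ℝ) : Prop :=
  c = 1 / (∏ p ∈ T, p : ℕ) ∨ (n < ∏ p ∈ T, p ∧ 0 ≤ c ∧ c ≤ 1 / n)

theorem count_good {n l : ℕ} {T : Finset ℕ} {c : ℕ → ℝ} (hT : ∀ p ∈ T, 0 < p) (hl : l ≤ n)
    (h : ∀ i < l, Good n T (c i)) :
    (⌊(l : ℝ) / (∏ p ∈ T, p : ℕ)⌋₊ : ℝ) ≤ ∑ i ∈ range l, c i ∧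
      ∑ i ∈ range l, c i ≤ ⌈(l : ℝ) / (∏ p ∈ T, p : ℕ)⌉₊ := by
  have d0 : (0 : ℝ) < (∏ p ∈ T, p : ℕ) := by exact_mod_cast prod_pos hT
  rcases le_or_gt (∏ p ∈ T, p) n with h1 | h1
  · rw [sum_congr rfl fun i hi => (h i (mem_range.1 hi)).resolve_right fun h => h.1.not_ge h1,
      sum_const, card_range, nsmul_eq_mul, mul_one_div]
    exact ⟨Nat.floor_le (by positivity), Nat.le_ceil _⟩
  · have h2 : (l : ℝ) / (∏ p ∈ T, p : ℕ) < 1 := by
      rw [div_lt_one d0]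
      exact_mod_cast hl.trans_lt h1
    rcases Nat.eq_zero_or_pos l with rfl | hl0
    · simp
    have n0 : (0 : ℝ) < n := by exact_mod_cast hl0.trans_le hl
    have h3 : ∀ i ∈ range l, 0 ≤ c i ∧ c i ≤ 1 / n := fun i hi => by
      rcases h i (mem_range.1 hi) with e | e
      · rw [e]
        exact ⟨by positivity, one_div_le_one_div_of_le n0 (by exact_mod_cast h1.le)⟩
      · exact e.2
    refine ⟨by rw [Nat.floor_eq_zero.2 h2]; simpa using sum_nonneg fun i hi => (h3 i hi).1, ?_⟩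
    have h4 : 1 ≤ ⌈(l : ℝ) / (∏ p ∈ T, p : ℕ)⌉₊ :=
      Nat.ceil_pos.2 (div_pos (by exact_mod_cast hl0) d0)
    have h5 : (l : ℝ) ≤ n := by exact_mod_cast hl
    calc ∑ i ∈ range l, c i ≤ ∑ _i ∈ range l, (1 : ℝ) / n := sum_le_sum fun i hi => (h3 i hi).2
      _ = l * (1 / n) := by rw [sum_const, card_range, nsmul_eq_mul]
      _ ≤ n * (1 / n) := by gcongr
      _ = 1 := by field_simp
      _ ≤ _ := by exact_mod_cast h4

theorem exists_coups {L M A S : Finset ℕ} {n : ℕ} {k v : ℝ} (hA : A ⊆ L) (hd : ∀ q ∈ M, q ∉ L)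
    (hk : 10 ≤ k) (h200 : ∀ p ∈ L ∪ M, 200 ≤ p) (hv : v = ∑ p ∈ M, 1 / (p : ℝ))
    (hu : ∑ p ∈ A, 1 / (p : ℝ) + 1 / 25 ≤ v) (hS : #((L ∪ M).filter (· ∈ S)) ≤ 2)
    (h12 : ∀ p ∈ L ∪ M, ∀ q ∈ M, 2 * 2500 * (n : ℝ) < (p : ℝ) * q)
    (h22 : ∀ p ∈ (L ∪ M) \ A, ∀ q ∈ (L ∪ M) \ A, 2 * 2500 * (n : ℝ) < (p : ℝ) * q) :
    ∃ μ π : ℕ → ℕ → ℝ, Coup M S (fun q => 1 / v * (1 / q)) μ ∧ Coup (L ∪ M) S (sw L k v) π ∧
      (∀ r t, r ≠ t → μ r t ≤ 2500 * (1 / r * (1 / t))) ∧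
      (∀ r t, r ≠ t → π r t ≤ 2500 * (1 / r * (1 / t))) ∧
      ∀ r t, r ≠ t → π r t ≠ 0 → 2 * 2500 * (n : ℝ) < (r : ℝ) * t := by
  have u0 : 0 ≤ ∑ p ∈ A, 1 / (p : ℝ) := sum_nonneg fun _ _ => by positivity
  have v0 : 0 < v := by linarith
  have v1 : 1 / v ≤ 25 := by
    rw [div_le_iff₀ v0]
    linarith
  have v2 : 0 < 1 / v := by positivity
  have i0 : ∀ p : ℕ, (0 : ℝ) ≤ 1 / p := fun p => by positivity
  have i1 : ∀ p ∈ L ∪ M, (1 : ℝ) / p ≤ 1 / 200 := fun p hp =>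
    one_div_le_one_div_of_le (by norm_num) (by exact_mod_cast h200 p hp)
  have k1 : 1 / k ≤ 1 / 10 := one_div_le_one_div_of_le (by norm_num) hk
  have k2 : 1 / k ^ 2 ≤ 1 / 100 := one_div_le_one_div_of_le (by norm_num) (by nlinarith)
  have k3 : 0 < 1 / k := by positivity
  have k4 : 0 < 1 / k ^ 2 / v := by positivity
  have k5 : 1 / k ^ 2 / v ≤ 1 := (div_le_one v0).2 (by linarith)
  obtain ⟨v', hv'⟩ : ∃ v', v' = ∑ p ∈ M \ S, 1 / (p : ℝ) := ⟨_, rfl⟩
  have w1 : v' ≤ v := by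
    rw [hv, hv']
    exact sum_le_sum_of_subset_of_nonneg sdiff_subset fun p _ _ => i0 p
  have w2 : v ≤ v' + 1 / 100 := by
    have e := sum_filter_add_sum_filter_not M (· ∈ S) fun p => 1 / (p : ℝ)
    rw [← hv, ← sdiff_eq_filter, ← hv'] at e
    have e1 := sum_le_card_nsmul (M.filter (· ∈ S)) (fun p => 1 / (p : ℝ)) (1 / 200)
      fun p hp => i1 p (mem_union_right _ (mem_filter.1 hp).1)
    have e2 : (#(M.filter (· ∈ S)) : ℝ) ≤ 2 := by
      exact_mod_cast (card_le_card (filter_subset_filter _ subset_union_right)).trans hS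
    rw [nsmul_eq_mul] at e1
    linarith
  have s0 : ∀ r, 0 ≤ sw L k v r := fun r => by
    unfold sw
    split_ifs <;> exact mul_nonneg (by linarith) (i0 r)
  have s1 : ∀ r, sw L k v r ≤ 1 / r := fun r => by
    unfold sw
    split_ifs <;> exact mul_le_of_le_one_left (i0 r) (by linarith)
  have l1 : 1 / 2 ≤ 1 / v * v' := by
    rw [one_div_mul_eq_div, le_div_iff₀ v0]
    linarith
  obtain ⟨μ, m1, m2, m3, m4, m5, m6⟩ := zero_diag (M \ S) (fun q => 1 / v * (1 / q))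
    (fun q => mul_nonneg v2.le (i0 q)) (Λ := 1 / v * v') (by rw [hv', mul_sum]) (by linarith)
    fun q hq => by
      have := mul_le_mul v1 (i1 q (mem_union_right _ (mem_sdiff.1 hq).1)) (i0 q) (by norm_num)
      linarith
  obtain ⟨μ', c1, c2⟩ := coup_of (G := M) (fun q => mul_nonneg v2.le (i0 q)) m1 m2 m3 m4
    fun r t h => ⟨(mem_sdiff.1 (m6 r t h).1).2, (mem_sdiff.1 (m6 r t h).2).2⟩
  have hB : M \ S ⊆ ((L ∪ M) \ A) \ S := sdiff_subset_sdiff (fun q hq =>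
    mem_sdiff.2 ⟨mem_union_right _ hq, fun h => hd q hq (hA h)⟩) subset_rfl
  have hU : A \ S ∪ ((L ∪ M) \ A) \ S = (L ∪ M) \ S := by
    rw [← union_sdiff_distrib, union_sdiff_of_subset (hA.trans subset_union_left)]
  obtain ⟨π, p1, p2, p3, p4, p5, p6⟩ := two_stage (A \ S) (M \ S) (((L ∪ M) \ A) \ S) (sw L k v) s0
    hB (disjoint_sdiff.mono sdiff_subset sdiff_subset) (c := 1 / 50) (by norm_num)
    (by
      have e1 : ∑ r ∈ A \ S, sw L k v r ≤ ∑ p ∈ A, 1 / (p : ℝ) := (sum_le_sum fun r _ => s1 r).trans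
        (sum_le_sum_of_subset_of_nonneg sdiff_subset fun p _ _ => i0 p)
      have e2 : ∑ r ∈ M \ S, sw L k v r = (1 - 1 / k ^ 2 / v) * v' := by
        rw [hv', mul_sum]
        exact sum_congr rfl fun r hr => if_neg (hd r (mem_sdiff.1 hr).1)
      have e3 := mul_le_mul_of_nonneg_left w1 k4.le
      rw [div_mul_cancel₀ _ v0.ne'] at e3
      rw [e2]
      linarith)
    fun r hr => by linarith [s1 r, i1 r (mem_sdiff.1 (mem_sdiff.1 hr).1).1]
  rw [hU] at p4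
  obtain ⟨π', d1, d2⟩ := coup_of (G := L ∪ M) s0 p1 p2 p3 p4 fun r t h => by
    rcases p6 r t h with h | h | h <;> exact ⟨(mem_sdiff.1 h.1).2, (mem_sdiff.1 h.2).2⟩
  refine ⟨μ', π', c1, d1, fun r t e => ?_, fun r t e => ?_, fun r t e h => ?_⟩
  · rw [c2 r t e]
    have e1 : 2 / (1 / v * v') ≤ 4 := by
      rw [div_le_iff₀ (by linarith)]
      linarith
    have := i0 r
    have := i0 t
    calc μ r t ≤ _ := m5 r t
      _ ≤ 4 * (25 * (1 / r) * (25 * (1 / t))) := by gcongr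
      _ = _ := by ring
  · rw [d2 r t e]
    exact (p5 r t).trans (mul_le_mul (by norm_num) (mul_le_mul (s1 r) (s1 t) (s0 t) (i0 r))
      (mul_nonneg (s0 r) (s0 t)) (by norm_num))
  · rw [d2 r t e] at h
    rcases p6 r t h with h | h | h
    · exact h12 r (mem_union_left _ (hA (mem_sdiff.1 h.1).1)) t (mem_sdiff.1 h.2).1
    · rw [mul_comm (r : ℝ)]
      exact h12 t (mem_union_left _ (hA (mem_sdiff.1 h.2).1)) r (mem_sdiff.1 h.1).1
    · exact h22 r (mem_sdiff.1 h.1).1 t (mem_sdiff.1 h.2).1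

theorem exists_pair_law {P L M A : Finset ℕ} {n : ℕ} {k : ℝ} (hP : ∀ p ∈ P, 2 ≤ p)
    (hG : L ∪ M ⊆ P) (hA : A ⊆ L) (hd : ∀ q ∈ M, q ∉ L) (hn : 0 < n) (hk : 10 ≤ k)
    (h200 : ∀ p ∈ L ∪ M, 200 ≤ p) (h2k : ∀ p ∈ L, 2 * k ≤ p)
    (ht : (1 - 1 / k) * ∑ p ∈ L, 1 / (p : ℝ) + ∑ p ∈ M, 1 / (p : ℝ) = 1)
    (hu : ∑ p ∈ A, 1 / (p : ℝ) + 1 / 25 ≤ ∑ p ∈ M, 1 / (p : ℝ))
    (h12 : ∀ p ∈ L ∪ M, ∀ q ∈ M, 2 * 2500 * (n : ℝ) < (p : ℝ) * q)
    (h22 : ∀ p ∈ (L ∪ M) \ A, ∀ q ∈ (L ∪ M) \ A, 2 * 2500 * (n : ℝ) < (p : ℝ) * q)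
    (h111 : ∀ p ∈ L, ∀ q ∈ L, ∀ r ∈ L, k * n ≤ (p : ℝ) * q * r) :
    ∃ w : Finset ℕ → ℝ, w ∅ = 0 ∧ ∀ S : Finset ℕ, #((L ∪ M).filter (· ∈ S)) ≤ 2 →
      ∃ W : Finset ℕ → Finset ℕ → ℝ, (∀ R R', 0 ≤ W R R') ∧ (∀ R R', W R R' = W R' R) ∧
        (∀ R ⊆ P, ∑ R' ∈ P.powerset, W R R' = w R) ∧
        (∀ R R', W R R' ≠ 0 →
          ∀ p ∈ P, (p ∈ S → (p ∈ R ↔ p ∈ R')) ∧ (p ∉ S → ¬ (p ∈ R ∧ p ∈ R'))) ∧
        ∀ D ⊆ P, ∀ D' ⊆ P, (∀ p ∈ D, p ∈ D' → p ∈ S) → Good n (D ∪ D') (corr2 P W D D') := by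
  obtain ⟨v, hv⟩ : ∃ v, v = ∑ p ∈ M, 1 / (p : ℝ) := ⟨_, rfl⟩
  rw [← hv] at ht hu
  have u0 : 0 ≤ ∑ p ∈ A, 1 / (p : ℝ) := sum_nonneg fun _ _ => by positivity
  have v0 : 0 < v := by linarith
  have k0 : 0 < k := by linarith
  refine ⟨fun R => ∑ q ∈ M, 1 / k ^ 2 * (1 / v * (1 / q)) * bern P (mg (L ∪ M) (rm L k q)) R +
    ∑ r ∈ L ∪ M, 1 * sw L k v r * bern P (mg (L ∪ M) (dl r)) R, ?_, fun S hS => ?_⟩
  · beta_reduce
    rw [sum_eq_zero, sum_eq_zero, add_zero]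
    · intro q hq
      rw [bern_empty (hG hq) (by rw [mg, if_pos hq, dl, if_pos rfl]), mul_zero]
    · intro q hq
      rw [bern_empty (hG (mem_union_right _ hq))
        (by rw [mg, if_pos (mem_union_right _ hq), rm, if_neg (hd q hq), dl, if_pos rfl]), mul_zero]
  obtain ⟨μ, π, hμ, hπ, bμ, bπ, sπ⟩ := exists_coups (n := n) hA hd hk h200 hv hu hS h12 h22
  have hh : ∀ p ∈ L, k / p ≤ 1 / 2 := fun p hp => by
    have := h2k p hp
    rw [div_le_iff₀ (by linarith)]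
    linarith
  obtain ⟨a1, a2, a3, a4, a5⟩ := pmix_spec (G := L ∪ M) (x := rm L k)
    (show 0 ≤ 1 / k ^ 2 by positivity) hμ hP
    (fun r p => by
      unfold rm
      split_ifs
      exacts [by positivity, dl_nonneg r p])
    (fun r p _ => by
      unfold rm
      split_ifs with h
      exacts [by linarith [hh p h], dl_le r p])
    (fun r t h p hp => by rw [rm, rm, (agree hμ h).1 p hp])
    (fun r t h p _ hp => by
      unfold rm
      split_ifs with h'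
      exacts [by linarith [hh p h'], (agree hμ h).2 p hp])
  obtain ⟨b1, b2, b3, b4, b5⟩ := pmix_spec (G := L ∪ M) (x := dl) zero_le_one hπ hP dl_nonneg
    (fun r p _ => dl_le r p) (fun r t h => (agree hπ h).1) fun r t h p _ => (agree hπ h).2 p
  refine ⟨fun R R' => pmix P S (L ∪ M) M (1 / k ^ 2) μ (rm L k) R R' +
    pmix P S (L ∪ M) (L ∪ M) 1 π dl R R', fun R R' => add_nonneg (a1 R R') (b1 R R'),
    fun R R' => by beta_reduce; rw [a2, b2], fun R hR => by rw [sum_add_distrib, a3 R hR, b3 R hR],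
    fun R R' h => ?_, fun D hD D' hD' hDS => ?_⟩
  · by_cases e : pmix P S (L ∪ M) M (1 / k ^ 2) μ (rm L k) R R' = 0
    · exact b4 R R' fun e' => h (by beta_reduce; rw [e, e', add_zero])
    · exact a4 R R' e
  have c0 : 0 ≤ corr2 P (fun R R' => pmix P S (L ∪ M) M (1 / k ^ 2) μ (rm L k) R R' +
      pmix P S (L ∪ M) (L ∪ M) 1 π dl R R') D D' :=
    sum_nonneg fun R _ => sum_nonneg fun R' _ => add_nonneg (a1 R R') (b1 R R')
  have hXY : Disjoint (D.filter (· ∈ L ∪ M)) ((D' \ D).filter (· ∈ L ∪ M)) :=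
    disjoint_filter_filter disjoint_sdiff
  have key := fac2_cases (K := 2500) (n := n)
    (union_subset (fun p hp => (mem_filter.1 hp).2) fun p hp => (mem_filter.1 hp).2) hXY hd hn
    (by linarith) (fun p hp => by linarith [h2k p hp]) (fun p hp => by linarith [h200 p hp]) hv v0
    ht (by norm_num) (by rw [div_le_iff₀ v0]; linarith) hμ hπ bμ bπ sπ h12 h111 rfl
  have hc : corr2 P (fun R R' => pmix P S (L ∪ M) M (1 / k ^ 2) μ (rm L k) R R' +
      pmix P S (L ∪ M) (L ∪ M) 1 π dl R R') D D' =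
      (1 / k ^ 2 * (∏ p ∈ D.filter (· ∈ L ∪ M) ∪ (D' \ D).filter (· ∈ L ∪ M) with p ∈ L, k / p) *
        two M μ ((D.filter (· ∈ L ∪ M)).filter (· ∉ L))
          (((D' \ D).filter (· ∈ L ∪ M)).filter (· ∉ L)) +
        two (L ∪ M) π (D.filter (· ∈ L ∪ M)) ((D' \ D).filter (· ∈ L ∪ M))) *
      ((∏ p ∈ D with p ∉ L ∪ M, (1 : ℝ) / p) * ∏ p ∈ D' \ D with p ∉ L ∪ M, (1 : ℝ) / p) := by
    rw [corr2_add, a5 D hD D' hD' hDS, b5 D hD D' hD' hDS, filter_union,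
      prod_union (disjoint_filter_filter hXY), add_mul, one_mul, two, two]
    congr 2
    rw [mul_assoc]
    congr 1
    rw [mul_sum]
    refine sum_congr rfl fun r _ => ?_
    rw [mul_sum]
    refine sum_congr rfl fun t _ => ?_
    simp only [rm, prod_ite]
    ring
  generalize corr2 P _ D D' = c at c0 hc ⊢
  rw [hc]
  rw [hc] at c0
  have g0 : ∀ E : Finset ℕ, 0 ≤ ∏ p ∈ E, (1 : ℝ) / p := fun E =>
    prod_nonneg fun _ _ => by positivity
  have g1 : ∀ E ⊆ P, ∏ p ∈ E, (1 : ℝ) / p ≤ 1 := fun E hE =>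
    prod_le_one (fun _ _ => by positivity) fun p hp => inv_le (by linarith [hP p (hE hp)])
  rcases key with h | ⟨⟨T, hT, h⟩, h'⟩
  · left
    rw [h, prod_union hXY, mul_mul_mul_comm, prod_filter_mul_prod_filter_not,
      prod_filter_mul_prod_filter_not, ← prod_union disjoint_sdiff, union_sdiff_self_eq_union]
    simp [prod_inv_distrib]
  · have hT' : T ⊆ D ∪ D' := hT.trans
      (union_subset_union (filter_subset _ _) ((filter_subset _ _).trans sdiff_subset))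
    refine Or.inr ⟨h.trans_le (prod_le_prod_of_subset_of_one_le' hT' fun p hp _ => by
      linarith [hP p (union_subset hD hD' hp)]), c0, ?_⟩
    exact (mul_le_mul_of_nonneg_right h' (mul_nonneg (g0 _) (g0 _))).trans
      (mul_le_of_le_one_right (by positivity) (mul_le_one₀ (g1 _ ((filter_subset _ _).trans hD))
        (g0 _) (g1 _ ((filter_subset _ _).trans (sdiff_subset.trans hD')))))

end Pool.Agent.MP_893164_nt
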