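import Pool.Agent.MP_893164_nt.Rng
import Pool.Agent.MP_893164_nt.PairLaw

/-! Chinese remainder counting for pairs of progressions, and the family of laws on pairs. -/

noncomputable section

namespace Pool.Agent.MP_893164_nt

open Finset

theorem crt2 (D : Finset ℕ) (hD : ∀ p ∈ D, p.Prime) (a r : ℕ → ℕ)
    (hr : ∀ p ∈ D, (r p).Coprime p) (c : ℕ → ℕ) :
    ∃ v, ∀ i, (∀ p ∈ D, a p + r p * i ≡ c p [MOD p]) ↔ i ≡ v [MOD ∏ p ∈ D, p] := by
  induction D using Finset.induction_on with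
  | empty => exact ⟨0, fun i => by simp [Nat.modEq_one]⟩
  | insert p D hp ih =>
    rw [prod_insert hp]
    have pp := hD p (mem_insert_self _ _)
    have hD' : ∀ q ∈ D, q.Prime := fun q hq => hD q (mem_insert_of_mem hq)
    obtain ⟨v, hv⟩ := ih hD' fun q hq => hr q (mem_insert_of_mem hq)
    have co : p.Coprime (∏ q ∈ D, q) := Nat.Coprime.prod_right fun q hq =>
      (Nat.coprime_primes pp (hD' q hq)).2 fun h => hp (h ▸ hq)
    obtain ⟨u, hu⟩ := crt {p} (by simpa using pp) (a p) (r p)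
      (by simpa using hr p (mem_insert_self _ _)) c
    simp only [mem_singleton, forall_eq, prod_singleton] at hu
    obtain ⟨k, k1, k2⟩ := Nat.chineseRemainder co u v
    refine ⟨k, fun i => ?_⟩
    rw [forall_mem_insert, hu, hv, ← Nat.modEq_and_modEq_iff_modEq_mul co]
    exact ⟨fun h => ⟨h.1.trans k1.symm, h.2.trans k2.symm⟩,
      fun h => ⟨h.1.trans k1, h.2.trans k2⟩⟩

theorem card_le_two {G S : Finset ℕ} {n m m' : ℕ} (hG : ∀ p ∈ G, p.Prime)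
    (h3 : ∀ p ∈ G, ∀ q ∈ G, ∀ r ∈ G, n < p * q * r) (hm : m ≤ n) (hm' : m' ≤ n) (e : m ≠ m')
    (hS : ∀ p ∈ S, m ≡ m' [MOD p]) : #(G.filter (· ∈ S)) ≤ 2 := by
  by_contra h
  obtain ⟨p, q, r, hp, hq, hr, hpq, hpr, hqr⟩ := two_lt_card_iff.1 (not_le.1 h)
  obtain ⟨p1, p2⟩ := mem_filter.1 hp
  obtain ⟨q1, q2⟩ := mem_filter.1 hq
  obtain ⟨r1, r2⟩ := mem_filter.1 hr
  have c1 := (Nat.coprime_primes (hG p p1) (hG q q1)).2 hpq
  have c2 := Nat.Coprime.mul_left ((Nat.coprime_primes (hG p p1) (hG r r1)).2 hpr)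
    ((Nat.coprime_primes (hG q q1) (hG r r1)).2 hqr)
  have := (Nat.modEq_and_modEq_iff_modEq_mul c2).1
    ⟨(Nat.modEq_and_modEq_iff_modEq_mul c1).1 ⟨hS p p2, hS q q2⟩, hS r r2⟩
  have l := h3 p p1 q q1 r r1
  exact e (this.eq_of_lt_of_lt (hm.trans_lt l) (hm'.trans_lt l))

theorem family {P G : Finset ℕ} {n : ℕ} {w : Finset ℕ → ℝ} (we : w ∅ = 0)
    (hG : ∀ p ∈ G, p.Prime) (h3 : ∀ p ∈ G, ∀ q ∈ G, ∀ r ∈ G, n < p * q * r)
    (hW : ∀ S : Finset ℕ, #(G.filter (· ∈ S)) ≤ 2 →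
      ∃ W : Finset ℕ → Finset ℕ → ℝ, (∀ R R', 0 ≤ W R R') ∧ (∀ R R', W R R' = W R' R) ∧
        (∀ R ⊆ P, ∑ R' ∈ P.powerset, W R R' = w R) ∧
        (∀ R R', W R R' ≠ 0 →
          ∀ p ∈ P, (p ∈ S → (p ∈ R ↔ p ∈ R')) ∧ (p ∉ S → ¬ (p ∈ R ∧ p ∈ R'))) ∧
        ∀ D ⊆ P, ∀ D' ⊆ P, (∀ p ∈ D, p ∈ D' → p ∈ S) → Good n (D ∪ D') (corr2 P W D D')) :
    ∃ W : ℕ → ℕ → Finset ℕ → Finset ℕ → ℝ,
      (∀ m m' R R', 0 ≤ W m m' R R') ∧ (∀ m m' R R', W m m' R R' = W m' m R' R) ∧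
      (∀ m, W m m ∅ ∅ = 0) ∧
      (∀ m m' R R', W m m' R R' ≠ 0 → ∀ p ∈ P,
        (m ≡ m' [MOD p] → (p ∈ R ↔ p ∈ R')) ∧ (¬ m ≡ m' [MOD p] → ¬ (p ∈ R ∧ p ∈ R'))) ∧
      (∀ m ∈ Icc 1 n, ∀ m' ∈ Icc 1 n, ∀ R ⊆ P, ∑ R' ∈ P.powerset, W m m' R R' = W m m R R) ∧
      ∀ m ∈ Icc 1 n, ∀ m' ∈ Icc 1 n, ∀ D ⊆ P, ∀ D' ⊆ P, (∀ p ∈ D ∩ D', m ≡ m' [MOD p]) →
        Good n (D ∪ D') (corr2 P (W m m') D D') := by
  choose! V hV using hW
  obtain ⟨z1, -, z3, -, z5⟩ := hV ∅ (by simp)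
  have hS : ∀ m ∈ Icc 1 n, ∀ m' ∈ Icc 1 n, m ≠ m' →
      #(G.filter (· ∈ P.filter fun p => m ≡ m' [MOD p])) ≤ 2 := fun m hm m' hm' e =>
    card_le_two hG h3 (mem_Icc.1 hm).2 (mem_Icc.1 hm').2 e fun p hp => (mem_filter.1 hp).2
  refine ⟨fun m m' R R' => if m = m' then (if R' = R ∧ R ⊆ P then w R else 0) else
    if m ∈ Icc 1 n ∧ m' ∈ Icc 1 n then V (P.filter fun p => m ≡ m' [MOD p]) R R' else 0,
    fun m m' R R' => ?_, fun m m' R R' => ?_, fun m => by simp [we], fun m m' R R' h p hp => ?_,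
    fun m hm m' hm' R hR => ?_, fun m hm m' hm' D hD D' hD' h => ?_⟩
  · beta_reduce
    split_ifs with a b b
    · rw [← z3 R b.2]
      exact sum_nonneg fun R' _ => z1 R R'
    · exact le_rfl
    · exact (hV _ (hS m b.1 m' b.2 a)).1 R R'
    · exact le_rfl
  · beta_reduce
    by_cases a : m = m'
    · rw [if_pos a, if_pos a.symm]
      by_cases b : R' = R
      · rw [b]
      · rw [if_neg fun h => b h.1, if_neg fun h => b h.1.symm]
    · rw [if_neg a, if_neg (Ne.symm a)]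
      by_cases b : m ∈ Icc 1 n ∧ m' ∈ Icc 1 n
      · rw [if_pos b, if_pos b.symm, (hV _ (hS m b.1 m' b.2 a)).2.1 R R',
          filter_congr fun p _ => Nat.ModEq.comm]
      · rw [if_neg b, if_neg fun h => b h.symm]
  · beta_reduce at h
    split_ifs at h with a b b
    · rw [a, b.1]
      exact ⟨fun _ => Iff.rfl, fun h => absurd Nat.ModEq.rfl h⟩
    · exact absurd rfl h
    · simpa [hp] using (hV _ (hS m b.1 m' b.2 a)).2.2.2.1 R R' h p hp
    · exact absurd rfl h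
  · by_cases a : m = m'
    · simp [a, hR]
    · simp only [a, hm, hm', hR, and_self, if_true, if_false]
      exact (hV _ (hS m hm m' hm' a)).2.2.1 R hR
  · by_cases a : m = m'
    · have := z5 (D ∪ D') (union_subset hD hD') ∅ (empty_subset _) (by simp)
      rw [union_empty] at this
      convert this using 1
      simp only [a, if_true, corr2, sum_filter, empty_subset]
      refine sum_congr rfl fun R hR => ?_
      have hR' := mem_powerset.1 hR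
      rw [z3 R hR', sum_eq_single_of_mem R hR fun R' _ e => by simp [e]]
      simp only [union_subset_iff, hR', and_self, if_true]
      split_ifs <;> tauto
    · simp only [a, hm, hm', and_self, if_true, if_false]
      exact (hV _ (hS m hm m' hm' a)).2.2.2.2 D hD D' hD' fun p hp hp' =>
        mem_filter.2 ⟨hD hp, h p (mem_inter.2 ⟨hp, hp'⟩)⟩

end Pool.Agent.MP_893164_nt
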