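import Pool.Agent.MP_7b352a_nt.sp.Mer
import Pool.Agent.MP_893164_nt.Law
import Mathlib.Analysis.SpecialFunctions.Pow.Asymptotics
import Mathlib.Analysis.SpecificLimits.Basic
import Mathlib.Data.ZMod.Basic
import Mathlib.Algebra.Field.ZMod

/-! Reciprocal sums of primes between two powers, and counting by the Chinese remainder theorem. -/

noncomputable section

namespace Pool.Agent.MP_893164_nt

open Finset Filter Topology
open Pool.Agent.MP_7b352a_nt.Sp (pri mem_pri second)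

theorem pow_top {α : ℝ} (hα : 0 < α) : Tendsto (fun n : ℕ => (n : ℝ) ^ α) atTop atTop :=
  (tendsto_rpow_atTop hα).comp tendsto_natCast_atTop_atTop

theorem log_top : Tendsto (fun n : ℕ => Real.log n) atTop atTop :=
  Real.tendsto_log_atTop.comp tendsto_natCast_atTop_atTop

theorem log_floor {α : ℝ} (hα : 0 < α) :
    Tendsto (fun n : ℕ => Real.log (⌊(n : ℝ) ^ α⌋₊ : ℕ) / Real.log n) atTop (𝓝 α) := by
  have h1 : Tendsto (fun n : ℕ => Real.log ((⌊(n : ℝ) ^ α⌋₊ : ℝ) / (n : ℝ) ^ α)) atTop (𝓝 0) := by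
    have := (tendsto_nat_floor_div_atTop.comp (pow_top hα)).log one_ne_zero
    rwa [Real.log_one] at this
  have h2 := (h1.div_atTop log_top).add_const α
  rw [zero_add] at h2
  refine h2.congr' ?_
  filter_upwards [(pow_top hα).eventually_ge_atTop 1, log_top.eventually_gt_atTop 0,
    eventually_gt_atTop 0] with n a1 a2 a3
  have n0 : (0 : ℝ) < n := by exact_mod_cast a3
  have a4 : (0 : ℝ) < (⌊(n : ℝ) ^ α⌋₊ : ℕ) := by exact_mod_cast Nat.floor_pos.2 a1
  rw [Real.log_div a4.ne' (by linarith), Real.log_rpow n0]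
  field_simp
  ring

theorem rng {α β : ℝ} (hα : 0 < α) (h : α ≤ β) :
    Tendsto (fun n : ℕ => ∑ p ∈ pri ⌊(n : ℝ) ^ α⌋₊ ⌊(n : ℝ) ^ β⌋₊, (1 : ℝ) / p) atTop
      (𝓝 (Real.log (β / α))) := by
  have hβ : 0 < β := hα.trans_le h
  obtain ⟨C, -, hC⟩ := second
  have h1 : Tendsto (fun n : ℕ => Real.log (Real.log (⌊(n : ℝ) ^ β⌋₊ : ℕ) /
      Real.log (⌊(n : ℝ) ^ α⌋₊ : ℕ))) atTop (𝓝 (Real.log (β / α))) := by
    refine (((log_floor hβ).div (log_floor hα) hα.ne').log (div_pos hβ hα).ne').congr' ?_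
    filter_upwards [log_top.eventually_gt_atTop 0] with n hn
    rw [Pi.div_apply, div_div_div_cancel_right₀ hn.ne']
  have h2 : Tendsto (fun n : ℕ => ⌊(n : ℝ) ^ α⌋₊) atTop atTop :=
    tendsto_nat_floor_atTop.comp (pow_top hα)
  have h3 : Tendsto (fun n : ℕ => C / Real.log (⌊(n : ℝ) ^ α⌋₊ : ℕ)) atTop (𝓝 0) :=
    tendsto_const_nhds.div_atTop (log_top.comp h2)
  have h4 : Tendsto (fun n : ℕ => ∑ p ∈ pri ⌊(n : ℝ) ^ α⌋₊ ⌊(n : ℝ) ^ β⌋₊, (1 : ℝ) / p -
      Real.log (Real.log (⌊(n : ℝ) ^ β⌋₊ : ℕ) / Real.log (⌊(n : ℝ) ^ α⌋₊ : ℕ))) atTop (𝓝 0) := by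
    refine squeeze_zero_norm' ?_ h3
    filter_upwards [h2.eventually_ge_atTop 2, eventually_ge_atTop 1] with n a1 a2
    exact hC _ _ a1 (Nat.floor_le_floor
      (Real.rpow_le_rpow_of_exponent_le (by exact_mod_cast a2) h))
  simpa using h4.add h1

theorem rng_one {α : ℝ} (hα : 0 < α) (h : α ≤ 1) :
    Tendsto (fun n : ℕ => ∑ p ∈ pri ⌊(n : ℝ) ^ α⌋₊ n, (1 : ℝ) / p) atTop
      (𝓝 (Real.log (1 / α))) := by
  simpa only [Real.rpow_one, Nat.floor_natCast] using rng hα h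

theorem crt (D : Finset ℕ) (hD : ∀ p ∈ D, p.Prime) (a r : ℕ) (hr : r.Coprime (∏ p ∈ D, p))
    (c : ℕ → ℕ) :
    ∃ v, ∀ i, (∀ p ∈ D, a + r * i ≡ c p [MOD p]) ↔ i ≡ v [MOD ∏ p ∈ D, p] := by
  induction D using Finset.induction_on with
  | empty => exact ⟨0, fun i => by simp [Nat.modEq_one]⟩
  | insert p D hp ih =>
    rw [prod_insert hp] at hr ⊢
    have pp := hD p (mem_insert_self _ _)
    have hD' : ∀ q ∈ D, q.Prime := fun q hq => hD q (mem_insert_of_mem hq)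
    obtain ⟨v, hv⟩ := ih hD' (Nat.Coprime.coprime_mul_left_right hr)
    have co : p.Coprime (∏ q ∈ D, q) := Nat.Coprime.prod_right fun q hq =>
      (Nat.coprime_primes pp (hD' q hq)).2 fun h => hp (h ▸ hq)
    have := Fact.mk pp
    have r0 : (r : ZMod p) ≠ 0 := by
      rw [Ne, ZMod.natCast_eq_zero_iff]
      exact (Nat.Prime.coprime_iff_not_dvd pp).1 (Nat.Coprime.coprime_mul_right_right hr).symm
    obtain ⟨u, hu⟩ : ∃ u : ℕ, ∀ i, a + r * i ≡ c p [MOD p] ↔ i ≡ u [MOD p] := by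
      refine ⟨(((c p : ZMod p) - a) / r).val, fun i => ?_⟩
      rw [← ZMod.natCast_eq_natCast_iff, ← ZMod.natCast_eq_natCast_iff, ZMod.natCast_zmod_val,
        eq_div_iff r0, eq_sub_iff_add_eq']
      push_cast
      rw [mul_comm]
    obtain ⟨k, k1, k2⟩ := Nat.chineseRemainder co u v
    refine ⟨k, fun i => ?_⟩
    rw [forall_mem_insert, hu, hv, ← Nat.modEq_and_modEq_iff_modEq_mul co]
    exact ⟨fun h => ⟨h.1.trans k1.symm, h.2.trans k2.symm⟩,
      fun h => ⟨h.1.trans k1, h.2.trans k2⟩⟩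

theorem count_mod (l d v : ℕ) (hd : 0 < d) :
    ⌊(l : ℝ) / d⌋₊ ≤ #{i ∈ range l | i ≡ v [MOD d]} ∧
      #{i ∈ range l | i ≡ v [MOD d]} ≤ ⌈(l : ℝ) / d⌉₊ := by
  rw [← Nat.count_eq_card_filter_range, Nat.count_modEq_card l hd v, Nat.floor_div_eq_div]
  refine ⟨Nat.le_add_right _ _, ?_⟩
  split_ifs with h
  · rw [Nat.add_one_le_iff, Nat.lt_ceil, lt_div_iff₀ (by exact_mod_cast hd)]
    have := Nat.div_add_mod' l d
    exact_mod_cast (by omega : l / d * d < l)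
  · rw [add_zero, ← Nat.floor_div_eq_div (K := ℝ)]
    exact Nat.floor_le_ceil _

/-- The union bound for a family of laws without mass at the empty set. -/
theorem union_bound (P : Finset ℕ) (w : Finset ℕ → ℝ) (h0 : ∀ R, 0 ≤ w R) (he : w ∅ = 0) :
    corr P w ∅ ≤ ∑ p ∈ P, corr P w {p} := by
  unfold corr
  simp only [sum_filter, empty_subset, if_true]
  rw [sum_comm]
  refine sum_le_sum fun R hR => ?_
  rcases R.eq_empty_or_nonempty with rfl | ⟨q, hq⟩
  · simp [he]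
  · refine le_trans ?_ (single_le_sum (f := fun p => if {p} ⊆ R then w R else 0)
      (fun p _ => ?_) (mem_powerset.1 hR hq))
    · simp [hq]
    · split_ifs
      exacts [h0 R, le_rfl]

end Pool.Agent.MP_893164_nt
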